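import Pool.Agent.Helper85.ZMY.Frq
import Pool.Agent.Helper29.MX.St2
import Pool.Agent.Helper18.SRT.Row

/-! THE TOTAL NUMBER OF A ZOOM over a type-label in a frame, type-labels. -/

set_option autoImplicit false

namespace Pool.Agent.Helper85.ZMY

open Finset Filter Topology Matrix Pool.Agent.Helper69.RK Pool.Agent.Helper31.EC Pool.Agent.Helper31.EC.Sp
open Pool.Agent.Helper40.EL Pool.Agent.Helper89.LX Pool.Agent.Helper84.MT
open Pool.Agent.Helper36.AM (Frm Gz Gzf)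
open Pool.Agent.Helper7.RD (FD0 volCO pR upz KLb_iff volP_self volP_cnA pfx_self gz_isX exists_KOp)
open Pool.Agent.Helper7.GZ (ZU Rows)
open Pool.Agent.Helper89.RAD (cnA)
open Pool.Agent.Helper29.MX

noncomputable section

variable {S T : Sp} {M : ℕ} {E E' : ℕ → ℕ} {ι : Type}

/-- a frame bounds the total number -/
theorem frm_vol [Finite ι] {s : MSys S M E ι} {w : Fin M → ℝ} (hw : ∀ j, 1 ≤ w j) {y : ℝ} (hy : 0 ≤ y) {L : Lab S}
    (hL : TLb s y L) (g : Frm s.Q L fun j => w j * y) (hwy : ∀ j, w j * y < 1) :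
    volKO s (rbot S) y ≤ M - (∑ i, w i) * y := by
  obtain ⟨e, he, he1, h1⟩ := exists_unit w hwy
  obtain ⟨κ, hκ⟩ := exists_deg hw hy g
  have hF : ∃ F : FD0 s.Q L (fun j => w j * y), F.f = g ∧ F.c = 0 ∧ F.e = e := ⟨⟨g, 0, e, le_rfl, he, by linarith,
    fun j => mul_nonneg (zero_le_one.trans (hw j)) hy, h1, κ, hκ⟩, rfl, rfl, rfl⟩
  obtain ⟨F, hf, hc, hFe⟩ := hF
  subst hf
  subst hFe
  have hK := KLb_iff.mp ((tlb_iff s y L).mpr hL)
  have hX : Rows.IsX F.zu F.rows (F.f.X.chg L.V F.e F.he) := F.isX_of ⟨fun _ => 0, S.Sub_const le_rfl,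
    Eventually.of_forall fun k ω _ j => by
      show |F.f.X.v k ω j - F.f.X.v k ω j| ≤ _
      rw [sub_self, abs_zero, zero_mul]⟩
  have h2 := F.volP_le (A := cnA s (pR (rbot S)) y) (B := fun i => upz F.zu (cnA s (pR (rbot S)) y i)) hK.1
    (fun i => ⟨i, PLe.refl _⟩) hK.2 hX (le_refl M)
  have h3 : volKO s (rbot S) y = volCO (LC.kz (pR (rbot S))) (cnA s (pR (rbot S)) y) s.Q := by
    rw [← volP_self, volP_cnA, pfx_self]
  rw [h3, ← pfx_self s.Q]
  have h4 : ∑ i : Fin M, w (Fin.castLE (le_refl M) i) * y = (∑ i, w i) * y := by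
    rw [Finset.sum_mul]
    exact Finset.sum_congr rfl fun i _ => rfl
  rw [h4] at h2
  refine h2.trans ?_
  have h5 := mul_nonneg F.he.le (sub_nonneg.mpr (Pool.Agent.Helper7.RD.volCO_le_M
    (C := LC.kz (upz F.zu (pR (rbot S)))) (A := fun i => upz F.zu (cnA s (pR (rbot S)) y i))
    (Q := pfx (S := F.zu.sp) (VV.chg L.V F.e F.he F.f.X) (le_refl M))))
  linarith

/-- VOLUMES OF A ZOOM, type-labels -/
theorem gz_volB [Finite ι] {s : MSys S M E ι} {l : Lab S} {La : Fin M → ℝ} (F : FD0 s.Q l La)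
    {t : MSys (l.ovr F.e F.he) M E' ι} (h : Gz s l F.c F.e F.he F.f.X t) (hl : TLb s F.c l) {b : ℝ} (hb : 0 ≤ b)
    (hb1 : b ≤ 1) : volKO s (rbot S) (F.c + F.e * b) ≤
      M - ∑ j, La j - F.e * (M - volKO t (rbot (l.ovr F.e F.he)) b) := by
  have key : ∀ D : ℕ, 1 ≤ D → volKO s (rbot S) (F.c + F.e * b) ≤
      M - ∑ j, La j - F.e * (M - volK t (rbot (l.ovr F.e F.he)) D b) := by
    intro D hD
    obtain ⟨y, hy⟩ := exists_KOp t (rbot (l.ovr F.e F.he)) D b
    have h1 := kad_bot.mp hy.1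
    have hcc : F.c ≤ F.c + F.e * b := by
      have := mul_nonneg F.he.le hb
      linarith
    have hlA : l.DMf (fun i => (s.lf i).win (F.c + F.e * b)) := tlb_mono hcc hl
    have hAB : ∀ i : ι, ∃ j : ι, PLe ((t.lf j).win b) (upz F.zu ((s.lf i).win (F.c + F.e * b))) :=
      fun i => ⟨i, (h.win b i hb hb1).1⟩
    have h2 := (F.pz t.Q (gz_isX F h)).out_ad (A := fun i => (s.lf i).win (F.c + F.e * b)) hlA hAB
      (le_refl (D * (F.pz t.Q (gz_isX F h)).D)) h1
    have h3 := volKO_le_of (kad_bot.mpr h2)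
    have h4 := (F.pz t.Q (gz_isX F h)).vol_out_le (A := fun i => (s.lf i).win (F.c + F.e * b)) hlA hAB hD
      (le_refl (D * (F.pz t.Q (gz_isX F h)).D)) h1 (fun _ _ => ∑ j, La j) (∑ j, La j)
      (Eventually.of_forall fun k ω _ => by rw [abs_of_nonneg (Finset.sum_nonneg fun j _ => F.h0 j)]) (fun _ => 1)
      (S.Sub_const zero_le_one) ((Typ_true (S := l.sp)).mono (Eventually.of_forall fun k ω _ _ => F.jac_rows k ω _))
    rw [show ul (fun k => ∑ ω, (F.zu.l k).T.μ ω * ∑ j, La j) = ∑ j, La j from FD0.ul_La] at h4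
    rw [volK_of_opt hy]
    exact h3.trans h4
  have key2 : ∀ D : ℕ, volKO s (rbot S) (F.c + F.e * b) ≤
      M - ∑ j, La j - F.e * (M - volK t (rbot (l.ovr F.e F.he)) D b) := by
    intro D
    rcases Nat.eq_zero_or_pos D with h0 | h0
    · subst h0
      have h1 := key 1 le_rfl
      have h2 : volK t (rbot (l.ovr F.e F.he)) 1 b ≤ volK t (rbot (l.ovr F.e F.he)) 0 b := by
        rw [volK_eq, volK_eq]
        exact Pool.Agent.Helper18.SRT.volC_deg _ _ _ (Nat.zero_le 1)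
      have h3 := mul_le_mul_of_nonneg_left h2 F.he.le
      linarith
    · exact key D h0
  have h5 := F.he
  have h3 : (M - (M - ∑ j, La j - volKO s (rbot S) (F.c + F.e * b)) / F.e) ≤ volKO t (rbot (l.ovr F.e F.he)) b := by
    refine le_ciInf fun D => ?_
    have h4 := key2 D
    have h7 : M - volK t (rbot (l.ovr F.e F.he)) D b ≤
        (M - ∑ j, La j - volKO s (rbot S) (F.c + F.e * b)) / F.e := by
      rw [le_div_iff₀ h5]
      linarith
    linarith
  have h6 : M - volKO t (rbot (l.ovr F.e F.he)) b ≤ (M - ∑ j, La j - volKO s (rbot S) (F.c + F.e * b)) / F.e := by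
    linarith
  rw [le_div_iff₀ h5] at h6
  linarith

/-- **THE TOTAL NUMBERS OF A ZOOM** -/
theorem tot_gz [Finite ι] {s : MSys S (M + 1) E ι} {w : Fin (M + 1) → ℝ} (hw : ∀ i, 1 ≤ w i) {c e : ℝ} (hc : 0 ≤ c)
    {he : 0 < e} (hwe : ∀ j, w j * c + e ≤ 1) {l : Lab S} (f : Frm s.Q l fun j => w j * c) (hl : TLb s c l)
    {t : MSys (l.ovr e he) (M + 1) E' ι} (ht : Gz s l c e he f.X t) (tot : Tot w s (rbot S))
    (car : Car w s (rbot S)) : Tot w t (rbot (l.ovr e he)) := by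
  intro b hb hwb
  have hb1 : b ≤ 1 := by nlinarith [hw 0, hwb 0]
  have hC : ∀ z, 0 ≤ z → (∀ j, w j * z < 1) →
      ∃ X : Rsl S, TLb s z (Lab.ofZ X) ∧ Nonempty (Frm s.Q (Lab.ofZ X) fun j => w j * z) := fun z h0 h1 => by
    obtain ⟨X, hX⟩ := car z h0 h1
    exact ⟨X, (tlb_iff s z _).mp hX.kl, hX.fr⟩
  refine le_antisymm ?_ ?_
  · obtain ⟨V, hV, ⟨g⟩⟩ := frq hw hc hwe hl f ht (fun z a b => (tot z a b).ge) hC hb hwb
    exact frm_vol hw hb hV g hwb
  · have hce : c + e ≤ 1 := by nlinarith [hw 0, hwe 0]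
    obtain ⟨κ, hκ⟩ := exists_deg hw hc f
    have h1 := gz_volB (⟨f, c, e, hc, he, hce, fun j => mul_nonneg (zero_le_one.trans (hw j)) hc, hwe, κ, hκ⟩ :
      FD0 s.Q l fun j => w j * c) ht hl hb hb1
    have hcb : 0 ≤ c + e * b := add_nonneg hc (mul_nonneg he.le hb)
    have h2 := tot (c + e * b) hcb (fun j => by
      have h3 := mul_lt_mul_of_pos_left (hwb j) he
      have h4 := hwe j
      nlinarith)
    have h3 : volKO s (rbot S) (c + e * b) ≤ ((M + 1 : ℕ) : ℝ) - ∑ j, w j * c -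
      e * (((M + 1 : ℕ) : ℝ) - volKO t (rbot (l.ovr e he)) b) := h1
    rw [h2, ← Finset.sum_mul] at h3
    have h4 : e * (((M + 1 : ℕ) : ℝ) - volKO t (rbot (l.ovr e he)) b) ≤ e * ((∑ i, w i) * b) := by linarith
    have h5 := le_of_mul_le_mul_left h4 he
    linarith

end

end Pool.Agent.Helper85.ZMY
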