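import Pool.Agent.Helper85.ZMY.Ale
import Pool.Agent.Helper85.ZMY.Tot
import Pool.Agent.Helper7.RD.Srr
import Pool.Agent.Helper48.ROK.Cars
import Pool.Agent.Helper61.ZMY.Vsx
import Pool.Agent.Helper55.INV.Gz

/-! ROW `ZCLX`: the clauses of the last class pass to the zooms over type-labels in frames, every unit. -/

set_option autoImplicit false

namespace Pool.Agent.Helper85.ZMY

open Finset Filter Topology Matrix Pool.Agent.Helper69.RK Pool.Agent.Helper31.EC Pool.Agent.Helper31.EC.Sp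
open Pool.Agent.Helper40.EL Pool.Agent.Helper84.MT Pool.Agent.Helper36.AM
open Pool.Agent.Helper29.MX
open Pool.Agent.Helper7.RD (Clw ZCLX)
open Pool.Agent.Helper52.MW (AllE_im AllE_self)
open Pool.Agent.Helper61.ZMY (Knw dfx_gz vsx_gz)
open Pool.Agent.Helper48.ROK (mc_of_frm mc_zero)
open Pool.Agent.Helper55.INV (ud_gz)

noncomputable section

variable {S T : Sp} {N M : ℕ} {E E' : ℕ → ℕ} {ι κ : Type}

/-- frames over literal type-labels from the least carriers -/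
theorem car_frames {s : MSys S N E ι} {w : Fin N → ℝ} (h : Car w s (rbot S)) : ∀ z, 0 ≤ z → (∀ j, w j * z < 1) →
    ∃ X : Rsl S, TLb s z (Lab.ofZ X) ∧ Nonempty (Frm s.Q (Lab.ofZ X) fun j => w j * z) := by
  intro z h0 h1
  obtain ⟨X, hX⟩ := h z h0 h1
  exact ⟨X, (tlb_iff s z _).mp hX.kl, hX.fr⟩

/-- the least carrier of the zoom is known to the least carrier of the system -/
theorem knw [Finite ι] {s : MSys S (M + 1) E ι} {w : Fin (M + 1) → ℝ} (hw : ∀ i, 1 ≤ w i) {c e : ℝ} (hc : 0 ≤ c)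
    {he : 0 < e} (hwe : ∀ j, w j * c + e ≤ 1) {l : Lab S} (f : Frm s.Q l fun j => w j * c) (hl : TLb s c l)
    {t : MSys (l.ovr e he) (M + 1) E' ι} (ht : Gz s l c e he f.X t) (tot : Tot w s (rbot S))
    (car : Car w s (rbot S)) : Knw w s l c e he t := by
  intro b hb hwb X hX Y hY
  have hb1 : b ≤ 1 := by nlinarith [hw 0, hwb 0]
  obtain ⟨h⟩ := hY.fr
  obtain ⟨V, -, h1, h2, h3⟩ := frq_lit hw hc hwe hl f ht (fun z a b => (tot z a b).ge) (car_frames car) hb hb1 hwb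
    ((tlb_iff s _ _).mp hY.kl) h
  have h4 := hX.min (Lab.ofZ V) ((tlb_iff t b _).mpr h2) h3
  have h5 : PLe (S := l.ovr e he) (fun k => fc (X k)) (fun k => fc (V k)) := by
    refine Nul.of_le (S := l.ovr e he) h4 (Eventually.of_forall fun k => h_nonneg _ _)
      (Eventually.of_forall fun k => le_of_eq ?_)
    exact ((Lab.ofZ (S := l.ovr e he) V k).p.h_map (fc (X k)) (fc (V k))).symm
  exact (Lab.nul_over l e he).mp (PLe.trans (S := l.ovr e he) h5 h1)

/-- **LEAST CARRIERS OF A ZOOM** -/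
theorem car_gz [Finite ι] {s : MSys S (M + 1) E ι} {w : Fin (M + 1) → ℝ} (hw : ∀ i, 1 ≤ w i) {c e : ℝ} (hc : 0 ≤ c)
    {he : 0 < e} (hwe : ∀ j, w j * c + e ≤ 1) {l : Lab S} (f : Frm s.Q l fun j => w j * c) (hl : TLb s c l)
    {t : MSys (l.ovr e he) (M + 1) E' ι} (ht : Gz s l c e he f.X t) (tot : Tot w s (rbot S))
    (car : Car w s (rbot S)) : Car w t (rbot (l.ovr e he)) := by
  intro b hb hwb
  rcases hb.eq_or_lt with h0 | hb0
  · subst h0
    exact ⟨_, mc_zero t _ w⟩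
  · obtain ⟨V, hV, ⟨g⟩⟩ := frq hw hc hwe hl f ht (fun z a b => (tot z a b).ge) (car_frames car) hb hwb
    exact mc_of_frm (Pool.Agent.Helper61.ZMY.pt_bot t) hb0 hw hwb (tot_gz hw hc hwe f hl ht tot car b hb hwb)
      ((tlb_iff t b _).mpr hV) g

/-- **VISIBILITY IN A ZOOM** -/
theorem vsx_zoom [Finite ι] {s : MSys S (M + 1) E ι} {w : Fin (M + 1) → ℝ} (hw : ∀ i, 1 ≤ w i) {c e : ℝ} (hc : 0 ≤ c)
    {he : 0 < e} (hwe : ∀ j, w j * c + e ≤ 1) {l : Lab S} (f : Frm s.Q l fun j => w j * c) (hl : TLb s c l)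
    {t : MSys (l.ovr e he) (M + 1) E' ι} (ht : Gz s l c e he f.X t) (tot : Tot w s (rbot S))
    (car : Car w s (rbot S)) (vsx : Vsx w s (rbot S)) : Vsx w t (rbot (l.ovr e he)) :=
  vsx_gz hw hc hwe f hl ht tot car vsx (knw hw hc hwe f hl ht tot car)

/-- **ROW `ZCLX`** -/
theorem zclx (M : ℕ) : ZCLX M := by
  intro A C v _ g g' r κ w ρ _ hw _ S s _ hcl c hc l f hl e he hwe t hz
  have hce : c + e ≤ 1 := by nlinarith [hw 0, hwe 0]
  obtain ⟨κ', hκ'⟩ := exists_deg hw hc f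
  have hall : AllE (fun _ t R => Tot w t R ∧ Car w t R ∧ Dfx w ρ t R ∧ Vsx w t R) S s (rbot S) :=
    fun T p A hA => ⟨hcl.tot T p A hA, hcl.car T p A hA, hcl.dfx T p A hA, hcl.vsx T p A hA⟩
  refine ⟨⟨hcl.inv.1, fun i => ud_gz hz hc hce (fun j => by nlinarith [hw j]) hκ' (hl i) (hcl.inv.2 i)⟩, ?_, ?_, ?_, ?_⟩
  · exact allE_gz (fun S s l f t hs hl hz => tot_gz hw hc hwe f hl hz (AllE_self hs).1 (AllE_self hs).2.1) hall f hl hz
  · exact allE_gz (fun S s l f t hs hl hz => car_gz hw hc hwe f hl hz (AllE_self hs).1 (AllE_self hs).2.1) hall f hl hz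
  · exact allE_gz (fun S s l f t hs hl hz => dfx_gz hw hc hwe f hl hz (AllE_self hs).1 (AllE_self hs).2.1
      (AllE_self hs).2.2.1) hall f hl hz
  · exact allE_gz (fun S s l f t hs hl hz => vsx_zoom hw hc hwe f hl hz (AllE_self hs).1 (AllE_self hs).2.1
      (AllE_self hs).2.2.2) hall f hl hz

/-- **ROW `ZMYR`** -/
theorem zmyr (M : ℕ) : ZMYR M := Pool.Agent.Helper7.RD.zmyr (zclx M)

end

end Pool.Agent.Helper85.ZMY
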