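import Pool.Agent.Helper85.ZMY.Trx

/-! FRAMES OF ZOOMS (FRQ): a zoom in a frame of the window `c` over a type-label has frames at all windows `b`, over
literal type-labels: the transition from the frame of the window `c` to a frame of the window `c + e b` over a literal
label, cut off where it is not tame. -/

set_option autoImplicit false

namespace Pool.Agent.Helper85.ZMY

open Pool.Agent.Helper69.RK hiding wt
open Finset Filter Topology Matrix Pool.Agent.Helper31.EC Pool.Agent.Helper31.EC.Sp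
open Pool.Agent.Helper40.EL Pool.Agent.Helper89.LX Pool.Agent.Helper3.LF Pool.Agent.Helper84.MT
open Pool.Agent.Helper36.AM (Frm Gz Gzf Lfr)
open Pool.Agent.Helper77.WDG (nrm nrm_nonneg nrm_le_of_coeff coeff_le_nrm Tri TriW tm cmp trs wt wLt_iff deg_le_wt
  cmp_nrm)
open Pool.Agent.Helper18.TRF (scl eval_scl deg_scl support_scl ovr_dl ovr_Sub dl_inv_mul frm_deg0 frm_triW Rfn frx
  Sub_sum)
open Pool.Agent.Helper7.GZ (Typ_all PLe_cell_typ)
open Pool.Agent.Helper29.MX

noncomputable section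

variable {S T : Sp} {M : ℕ} {E : ℕ → ℕ} {ι : Type}

theorem ple_inf3 {A B C : Rsl S} {P : Part S} (hA : PLe (fun k => fc (A k)) P) (hB : PLe (fun k => fc (B k)) P)
    (hC : PLe (fun k => fc (C k)) P) : PLe (fun k => fc (A k ⊓ (B k ⊓ C k))) P := by
  have e1 : (fun k => (fc (A k ⊓ (B k ⊓ C k)) : FL (S.F k))) = fun k => fc (A k) ⊔ (fc (B k) ⊔ fc (C k)) :=
    funext fun k => by rw [fc_inf, fc_inf]
  rw [e1]
  exact hA.sup_le (hB.sup_le hC)

theorem ple_cell_zero {m : ℕ} (y : S.VV m) (r : ℝ) {A : ∀ k, (S.F k).Ω → Prop} (hA : Typ A)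
    (h0 : ∀ k ω, A k ω → ∀ i, y.v k ω i = 0) (P : Part S) : PLe (fun k => fc (Setoid.ker (y.cellv r k))) P := by
  have h3 := PLe_cell_typ (S := S) y r (fun _ => ⊤) (fun _ => 0) (S.Sub_const le_rfl) hA
    (Eventually.of_forall fun k ω ω' _ _ a a' _ _ i => by
      rw [h0 k ω a, h0 k ω' a', sub_zero, abs_zero, zero_mul])
  refine h3.trans (PLe_of_ev (Eventually.of_forall fun k => ?_))
  induction (P k) using fc_ind with
  | _ Y => exact fc_mono le_top

theorem floor_near {d : ℝ} (hd : 0 < d) (x : ℝ) : |(⌊x / d⌋ : ℝ) * d - x| ≤ d := by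
  have h1 := Int.floor_le (x / d)
  have h2 := Int.lt_floor_add_one (x / d)
  rw [le_div_iff₀ hd] at h1
  rw [div_lt_iff₀ hd] at h2
  rw [abs_le]
  constructor <;> nlinarith

section frq

variable {Q : S.VV M} {w : Fin M → ℝ} {c e b : ℝ} {he : 0 < e} {l : Lab S} {X : Rsl S}
  (f : Frm Q l fun j => w j * c) (h : Frm Q (Lab.ofZ X) fun j => w j * (c + e * b)) (y : (l.ovr e he).VV M)
  (K : ℕ → ℝ)

/-- the transition -/
def qro (k : ℕ) (ω : (l k).T.Ω) : Fin M → MvPolynomial (Fin M) ℝ :=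
  rho (frx (ltx_lab l X) f) (frx (ltx_lit l X) h) k ω

/-- the transition in the scale of the window `c` -/
def qht (k : ℕ) (ω : (l k).T.Ω) : Fin M → MvPolynomial (Fin M) ℝ := hat (fun a => S.dl (w a * c) k) (qro f h k ω)

/-- the tame part -/
def qgd (k : ℕ) (ω : (l k).T.Ω) : Prop := ∀ j, nrm (qht f h k ω j) ≤ K k

open Classical in
/-- the point on the rest -/
def qY : (l.ovr e he).VV M where
  v := fun k (ω : (l k).T.Ω) j => if qgd f h K k ω then 0 else y.v k ω j
  bd := by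
    obtain ⟨Ky, hK, hy⟩ := y.bd
    refine ⟨Ky, hK, ?_⟩
    filter_upwards [hy, hK.1] with k a p
    intro (ω : (l k).T.Ω) hω j
    by_cases hg : qgd f h K k ω
    · rw [if_pos hg, abs_zero]
      exact p
    · rw [if_neg hg]
      exact a ω hω j

open Classical in
/-- the bit of the rest -/
def qB : (l.ovr e he).VV 1 where
  v := fun k (ω : (l k).T.Ω) _ => if qgd f h K k ω then 0 else 1
  bd := by
    refine ⟨fun _ => 1, (l.ovr e he).Sub_const zero_le_one, Eventually.of_forall fun k => ?_⟩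
    intro (ω : (l k).T.Ω) hω j
    by_cases hg : qgd f h K k ω
    · rw [if_pos hg, abs_zero]
      exact zero_le_one
    · rw [if_neg hg, abs_one]

/-- the label of the frame -/
@[instance_reducible] def qV : Rsl (l.ovr e he) := fun k => Setoid.comap (l k).p.π (X k) ⊓
  (Setoid.ker ((qB (he := he) f h K).cellv 0 k) ⊓ Setoid.ker ((qY f h y K).cellv 1 k))

theorem qV_gd {k : ℕ} {ω ω' : (l k).T.Ω} (hv : qV f h y K k ω ω') : qgd f h K k ω ↔ qgd f h K k ω' := by
  have h1 : (qB (he := he) f h K).cellv 0 k ω = (qB (he := he) f h K).cellv 0 k ω' := hv.2.1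
  have h2 := congrFun h1 0
  have e1 : ∀ ω : (l k).T.Ω, (qB (he := he) f h K).cellv 0 k ω 0 = ⌊(qB (he := he) f h K).v k ω 0 / (l.ovr e he).dl 0 k⌋ :=
    fun _ => rfl
  rw [e1, e1, (l.ovr e he).dl_zero, div_one, div_one] at h2
  by_cases a : qgd f h K k ω <;> by_cases a' : qgd f h K k ω'
  · exact ⟨fun _ => a', fun _ => a⟩
  · exfalso
    have u1 : (qB (he := he) f h K).v k ω 0 = 0 := if_pos a
    have u2 : (qB (he := he) f h K).v k ω' 0 = 1 := if_neg a'
    rw [u1, u2, Int.floor_zero, Int.floor_one] at h2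
    exact zero_ne_one h2
  · exfalso
    have u1 : (qB (he := he) f h K).v k ω 0 = 1 := if_neg a
    have u2 : (qB (he := he) f h K).v k ω' 0 = 0 := if_pos a'
    rw [u1, u2, Int.floor_zero, Int.floor_one] at h2
    exact one_ne_zero h2
  · exact ⟨fun x => absurd x a, fun x => absurd x a'⟩

/-- the label is known to the windows of the zoom -/
theorem qV_tlb {s : MSys S M E ι} {E' : ℕ → ℕ} {t : MSys (l.ovr e he) M E' ι}
    (hX : TLb s (c + e * b) (Lab.ofZ X)) (hK : Typ (S := l.ovr e he) fun k (ω : (l k).T.Ω) => qgd f h K k ω)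
    (ht : ∀ i, PLe (l.up e he ((s.lf i).win (c + e * b))) ((t.lf i).win b)) : TLb t b (Lab.ofZ (qV f h y K)) := by
  refine (Lab.ofZ_DMf (S := l.ovr e he) (qV f h y K)).mpr fun i => ?_
  have hX' : PLe (fun k => fc (X k)) ((s.lf i).win (c + e * b)) := (Lab.ofZ_DMf X).mp hX i
  have h1 : PLe (S := l.ovr e he) (l.up e he (fun k => fc (X k))) ((t.lf i).win b) :=
    PLe.trans (S := l.ovr e he) (Lab.PLe_up (l := l) (c := e) (hc := he) hX') (ht i)
  refine ple_inf3 (S := l.ovr e he) h1 ?_ ?_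
  · exact ple_cell_zero (S := l.ovr e he) (qB (he := he) f h K) 0 hK (fun k ω a i => if_pos a) _
  · exact ple_cell_zero (S := l.ovr e he) (qY f h y K) 1 hK (fun k ω a i => if_pos a) _

/-- values of the transition -/
theorem qro_val (hc : 0 ≤ c) (hw : ∀ j, 1 ≤ w j) : ∃ K : ℕ → ℝ, S.Sub K ∧ ∀ᶠ k in UF, ∀ ω : (l k).T.Ω,
    (l k).T.μ ω ≠ 0 → ∀ j,
      |MvPolynomial.eval (fun i => (l.ovr e he).dl (w i * b) k * h.X.v k ((l k).p.π ω) i) (qht f h k ω j) +
        (l.ovr e he).dl (w j * b) k * h.X.v k ((l k).p.π ω) j - f.X.v k ω j| ≤ K k * S.dl (1 - w j * c) k := by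
  obtain ⟨W, hW⟩ := exists_bd w hw
  have hw0 : ∀ j, 0 < w j := fun j => zero_lt_one.trans_le (hw j)
  obtain ⟨K, hK, hv⟩ := gtr_val (frx (ltx_lab l X) f) (frx (ltx_lit l X) h) (fun i => mul_nonneg (hw0 i).le hc) (d := W)
    (fun k ω j => frm_deg0 (frx (ltx_lab l X) f) hc hw hW k ω j)
  refine ⟨K, hK, ?_⟩
  filter_upwards [hv] with k a ω hω j
  have h1 := a ω hω j
  have e1 : (frx (ltx_lab l X) f).X.v k ω j = f.X.v k ω j := rfl
  have e2 : MvPolynomial.eval ((frx (ltx_lit l X) h).X.v k ω) (gtr (frx (ltx_lab l X) f) (frx (ltx_lit l X) h) k ω j) =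
      MvPolynomial.eval (fun i => (l.ovr e he).dl (w i * b) k * h.X.v k ((l k).p.π ω) i) (qht f h k ω j) +
        (l.ovr e he).dl (w j * b) k * h.X.v k ((l k).p.π ω) j := by
    obtain ⟨u, hu⟩ : ∃ u : Fin M → ℝ, u = h.X.v k ((l k).p.π ω) := ⟨_, rfl⟩
    have e3 : (frx (ltx_lit l X) h).X.v k ω = u := hu.symm
    have e5 := Pool.Agent.Helper77.WDG.eval_tm (P := qht f h k ω) (fun i => (l.ovr e he).dl (w i * b) k * u i) j
    have e6 : MvPolynomial.eval (fun i => (l.ovr e he).dl (w i * b) k * u i) (tm (qht f h k ω) j) =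
        (S.dl (w j * c) k)⁻¹ * MvPolynomial.eval (fun a => S.dl (w a * c) k * ((l.ovr e he).dl (w a * b) k * u a))
          (tm (qro f h k ω) j) := eval_tm_hat (fun j => (S.dl_pos _ k).ne') _ j
    have e7 : MvPolynomial.eval u (gtr (frx (ltx_lab l X) f) (frx (ltx_lit l X) h) k ω j) =
        (S.dl (w j * c) k)⁻¹ * MvPolynomial.eval (fun a => S.dl (w a * (c + e * b)) k * u a)
          (tm (qro f h k ω) j) := eval_scl _
    have e4 : (fun a => S.dl (w a * (c + e * b)) k * u a) = fun a => S.dl (w a * c) k *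
        ((l.ovr e he).dl (w a * b) k * u a) := by
      funext a
      rw [ovr_dl, ← mul_assoc]
      congr 1
      unfold Sp.dl
      rw [← Real.rpow_add (by norm_num)]
      congr 1
      ring
    rw [← hu, e3, e7, e4, ← e6, e5, add_comm]
  rw [e1, e2] at h1
  exact h1

theorem qro_triW (hc : 0 ≤ c) (hb : 0 ≤ c + e * b) (hw : ∀ j, 1 ≤ w j) (k : ℕ) (ω : (l k).T.Ω) :
    TriW w (qro f h k ω) :=
  TriW.trs (frm_triW (frx (ltx_lab l X) f) hc (fun j => zero_lt_one.trans_le (hw j)) (fun _ => rfl) k ω)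
    (frm_triW (frx (ltx_lit l X) h) hb (fun j => zero_lt_one.trans_le (hw j)) (fun _ => rfl) k ω)

open Classical in
/-- THE FRAME OF THE ZOOM -/
def qfr (hc : 0 ≤ c) (hb : 0 < b) (hw : ∀ j, 1 ≤ w j) (hwe : ∀ j, w j * c + e ≤ 1) (hK : S.Sub K)
    (hy : ∃ K : ℕ → ℝ, S.Sub K ∧ ∀ᶠ k in UF, ∀ ω : (l k).T.Ω, (l k).T.μ ω ≠ 0 → ∀ j,
      |y.v k ω j - f.X.v k ω j| ≤ K k * S.dl e k) : Frm y (Lab.ofZ (qV f h y K)) fun j => w j * b where
  X :=
    { v := fun k (ω : (l k).T.Ω) j => if qgd f h K k ω then h.X.v k ((l k).p.π ω) j else 0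
      bd := by
        obtain ⟨Kx, hKx', hx⟩ := h.X.bd
        have hKx : S.Sub Kx := (sp_Sub (Lab.ofZ X)).mp hKx'
        refine ⟨Kx, (sp_Sub _).mpr ((ovr_Sub l e he).mpr hKx), ?_⟩
        filter_upwards [hx, hKx.1] with k a p
        intro (ω : (l k).T.Ω) (hω : (l k).T.μ ω ≠ 0) j
        show |if qgd f h K k ω then h.X.v k ((l k).p.π ω) j else 0| ≤ Kx k
        by_cases hg : qgd f h K k ω
        · rw [if_pos hg]
          exact a _ ((l k).p.supp ω hω) j
        · rw [if_neg hg, abs_zero]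
          exact p }
  P := fun k (ω : (l k).T.Ω) j => if qgd f h K k ω then qht f h k ω j else
    MvPolynomial.C (((qY f h y K).cellv 1 k ω j : ℝ) * (l.ovr e he).dl 1 k)
  tri := by
    intro k (ω : (l k).T.Ω) j i hi
    by_cases hg : qgd f h K k ω
    · rw [if_pos hg] at hi
      exact Tri.hat (qro_triW f h hc (add_nonneg hc (mul_nonneg he.le hb.le)) hw k ω).tri _ j i hi
    · rw [if_neg hg, MvPolynomial.vars_C] at hi
      exact absurd hi (Finset.notMem_empty i)
  red := by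
    intro k (ω : (l k).T.Ω) j a ha h0
    by_cases hg : qgd f h K k ω
    · rw [if_pos hg] at ha
      obtain ⟨W, hW⟩ := exists_bd w hw
      have h1 := triW_supp hw (qro_triW f h hc (add_nonneg hc (mul_nonneg he.le hb.le)) hw k ω) hW (support_scl ha)
      have h2 : ∑ i, (a i : ℝ) * (w i * b) = wt w a * b := by
        unfold wt
        rw [Finset.sum_mul]
        exact Finset.sum_congr rfl fun i _ => by ring
      rw [h2]
      exact mul_lt_mul_of_pos_right h1.2 hb
    · rw [if_neg hg] at ha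
      have h1 : a ∈ (MvPolynomial.monomial (0 : Fin M →₀ ℕ)
        (((qY f h y K).cellv 1 k ω j : ℝ) * (l.ovr e he).dl 1 k)).support := ha
      have h2 := MvPolynomial.support_monomial_subset h1
      exact absurd (Finset.mem_singleton.mp h2) h0
  fn := by
    filter_upwards [rho_fn (frx (ltx_lab l X) f) (frx (ltx_lit l X) h)] with k hk
    intro (ω : (l k).T.Ω) (ω' : (l k).T.Ω) a b z v
    have hv : qV f h y K k ω ω' := v
    have hg := qV_gd f h y K hv
    have h1 : qro f h k ω = qro f h k ω' := hk ω ω' a b z.2 ⟨z.1, hv.1⟩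
    have h2 : (qY f h y K).cellv 1 k ω = (qY f h y K).cellv 1 k ω' := hv.2.2
    have h3 : qht f h k ω = qht f h k ω' := by
      unfold qht
      rw [h1]
    funext j
    show (if qgd f h K k ω then qht f h k ω j else
        MvPolynomial.C (((qY f h y K).cellv 1 k ω j : ℝ) * (l.ovr e he).dl 1 k)) =
      if qgd f h K k ω' then qht f h k ω' j else
        MvPolynomial.C (((qY f h y K).cellv 1 k ω' j : ℝ) * (l.ovr e he).dl 1 k)
    by_cases a : qgd f h K k ω
    · rw [if_pos a, if_pos (hg.mp a), h3]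
    · rw [if_neg a, if_neg fun x => a (hg.mpr x), h2]
  bd := by
    obtain ⟨Ky, hKy, hyb⟩ := (qY f h y K).bd
    refine ⟨fun k => K k + (Ky k + 1), ((ovr_Sub l e he).mpr hK).add (hKy.add ((l.ovr e he).Sub_const zero_le_one)), ?_⟩
    filter_upwards [hyb, hK.1, hKy.1] with k a1 p1 p2
    intro (ω : (l k).T.Ω) hω j a
    show |(if qgd f h K k ω then qht f h k ω j else
        MvPolynomial.C (((qY f h y K).cellv 1 k ω j : ℝ) * (l.ovr e he).dl 1 k)).coeff a| ≤ _
    by_cases hg : qgd f h K k ω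
    · rw [if_pos hg]
      have h1 := (coeff_le_nrm (qht f h k ω j) a).trans (hg j)
      linarith
    · rw [if_neg hg, MvPolynomial.coeff_C]
      have h1 : |(qY f h y K).v k ω j| ≤ Ky k := a1 ω hω j
      have h2 : ((qY f h y K).cellv 1 k ω j : ℤ) = ⌊(qY f h y K).v k ω j / (l.ovr e he).dl 1 k⌋ := rfl
      have hd := (l.ovr e he).dl_pos 1 k
      have hd1 : (l.ovr e he).dl 1 k ≤ 1 := ((l.ovr e he).dl_anti zero_le_one k).trans (le_of_eq ((l.ovr e he).dl_zero k))
      have h3 : |((qY f h y K).cellv 1 k ω j : ℝ) * (l.ovr e he).dl 1 k - (qY f h y K).v k ω j| ≤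
          (l.ovr e he).dl 1 k := by
        rw [h2]
        exact floor_near hd _
      split_ifs
      · have h4 := abs_add_le (((qY f h y K).cellv 1 k ω j : ℝ) * (l.ovr e he).dl 1 k - (qY f h y K).v k ω j)
          ((qY f h y K).v k ω j)
        rw [sub_add_cancel] at h4
        linarith
      · rw [abs_zero]
        linarith
  pt := by
    obtain ⟨Kq, hKq, hq⟩ := hy
    obtain ⟨Kv, hKv, hv⟩ := qro_val f h (he := he) hc hw
    refine ⟨fun k => Kq k + Kv k + 1, ((ovr_Sub l e he).mpr (hKq.add hKv)).add ((l.ovr e he).Sub_const zero_le_one), ?_⟩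
    filter_upwards [hq, hv, hKq.1, hKv.1] with k a1 a2 p1 p2
    intro (ω : (l k).T.Ω) (hω : (l k).T.μ ω ≠ 0) j
    have hd := (l.ovr e he).dl_pos 1 k
    have hde : (l.ovr e he).dl 1 k = S.dl e k := by rw [ovr_dl, mul_one]
    show |y.v k ω j - (MvPolynomial.eval (fun i => (l.ovr e he).dl (w i * b) k *
        (if qgd f h K k ω then h.X.v k ((l k).p.π ω) i else 0)) (if qgd f h K k ω then qht f h k ω j else
        MvPolynomial.C (((qY f h y K).cellv 1 k ω j : ℝ) * (l.ovr e he).dl 1 k)) +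
        (l.ovr e he).dl (w j * b) k * (if qgd f h K k ω then h.X.v k ((l k).p.π ω) j else 0))| ≤
        (Kq k + Kv k + 1) * (l.ovr e he).dl 1 k
    by_cases hg : qgd f h K k ω
    · simp only [if_pos hg]
      have h1 := a1 ω hω j
      have h2 := a2 ω hω j
      have h3 : S.dl (1 - w j * c) k ≤ S.dl e k := S.dl_anti (by linarith [hwe j]) k
      have h4 := mul_le_mul_of_nonneg_left h3 p2
      rw [hde] at hd ⊢
      rw [abs_le] at h1 h2 ⊢
      constructor <;> nlinarith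
    · simp only [if_neg hg, mul_zero, add_zero, MvPolynomial.eval_C]
      have h2 : ((qY f h y K).cellv 1 k ω j : ℤ) = ⌊(qY f h y K).v k ω j / (l.ovr e he).dl 1 k⌋ := rfl
      have h3 : |((qY f h y K).cellv 1 k ω j : ℝ) * (l.ovr e he).dl 1 k - (qY f h y K).v k ω j| ≤
          (l.ovr e he).dl 1 k := by
        rw [h2]
        exact floor_near hd _
      have h4 : (qY f h y K).v k ω j = y.v k ω j := if_neg hg
      rw [h4, abs_sub_comm] at h3
      refine h3.trans ?_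
      nlinarith

end frq

/-- the frame of the window zero -/
def frz (Q : S.VV M) (l : Lab S) {La : Fin M → ℝ} (hLa : ∀ i, La i = 0) : Frm Q l La where
  X := l.pj.vv Q
  P := fun _ _ _ => 0
  tri := fun k ω j i hi => by
    rw [MvPolynomial.vars_0] at hi
    exact absurd hi (Finset.notMem_empty i)
  red := fun k ω j a ha => by
    rw [MvPolynomial.support_zero] at ha
    exact absurd ha (Finset.notMem_empty a)
  fn := Eventually.of_forall fun k ω ω' _ _ _ _ => rfl
  bd := ⟨fun _ => 1, S.Sub_const zero_le_one, Eventually.of_forall fun k ω _ j a => by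
    rw [MvPolynomial.coeff_zero, abs_zero]
    exact zero_le_one⟩
  pt := ⟨fun _ => 1, S.Sub_const zero_le_one, Eventually.of_forall fun k ω _ j => by
    rw [map_zero, zero_add, hLa, S.dl_zero, one_mul, sub_self, abs_zero, one_mul]
    exact (S.dl_pos _ _).le⟩

theorem tlb_top (s : MSys S M E ι) (c : ℝ) : TLb s c (Lab.ofZ fun _ => ⊤) := by
  refine (Lab.ofZ_DMf _).mpr fun i => PLe_of_ev (Eventually.of_forall fun k => ?_)
  induction ((s.lf i).win c k) using fc_ind with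
  | _ Y => exact fc_mono le_top

/-- **FRAMES OF ZOOMS** over a given literal label of the window `c + e b` -/
theorem frq_lit [Finite ι] {s : MSys S M E ι} {w : Fin M → ℝ} (hw : ∀ j, 1 ≤ w j) {c e : ℝ} (hc : 0 ≤ c) {he : 0 < e}
    (hwe : ∀ j, w j * c + e ≤ 1) {l : Lab S} (hl : TLb s c l) (f : Frm s.Q l fun j => w j * c) {E' : ℕ → ℕ}
    {t : MSys (l.ovr e he) M E' ι} (hz : Gz s l c e he f.X t)
    (hT : ∀ z, 0 ≤ z → (∀ j, w j * z < 1) → (M : ℝ) - (∑ i, w i) * z ≤ volKO s (rbot S) z)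
    (hC : ∀ z, 0 ≤ z → (∀ j, w j * z < 1) →
      ∃ X : Rsl S, TLb s z (Lab.ofZ X) ∧ Nonempty (Frm s.Q (Lab.ofZ X) fun j => w j * z))
    {b : ℝ} (hb : 0 < b) (hb1 : b ≤ 1) (hwb : ∀ j, w j * b < 1) {X : Rsl S} (hX : TLb s (c + e * b) (Lab.ofZ X))
    (h : Frm s.Q (Lab.ofZ X) fun j => w j * (c + e * b)) :
    ∃ V : Rsl (l.ovr e he), (∀ k, V k ≤ Setoid.comap (l k).p.π (X k)) ∧
      PLe (S := l.ovr e he) (fun k => fc (V k))
        (fun k => fc (F := (l.ovr e he).F k) (Setoid.comap (l k).p.π (X k))) ∧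
      TLb t b (Lab.ofZ V) ∧ Nonempty (Frm t.Q (Lab.ofZ V) fun j => w j * b) := by
  have hw0 : ∀ j, 0 < w j := fun j => zero_lt_one.trans_le (hw j)
  have hcc : c ≤ c + e * b := by
    have := mul_nonneg he.le hb.le
    linarith
  have hwc : ∀ j, w j * (c + e * b) < 1 := fun j => by
    have h1 := mul_lt_mul_of_pos_left (hwb j) he
    have h2 := hwe j
    nlinarith
  have hwz : ∀ z, z ≤ c + e * b → ∀ j, w j * z < 1 := fun z h2 j =>
    (mul_le_mul_of_nonneg_left h2 (hw0 j).le).trans_lt (hwc j)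
  have key := trw hw hc hcc hwc (fun z h1 h2 => hT z (hc.trans h1) (hwz z h2))
    (fun z h1 h2 => hC z (hc.trans h1) (hwz z h2)) (ltx_lab l X) hl f (tlb_ltx (tlb_mono hcc hl) hX)
    (frx (ltx_lit l X) h)
  have key1 : ∀ j, ∃ K : ℕ → ℝ, S.Sub K ∧ Typ (S := l.sp) fun k (ω : (l k).T.Ω) => nrm (qht f h k ω j) ≤ K k := by
    intro j
    obtain ⟨K, hK, hTy⟩ := typ_sub_le (S := l.sp) (fun k (ω : (l k).T.Ω) => nrm (qht f h k ω j)) (fun δ hδ => by
      have h1 : Typ (S := l.sp) fun k (ω : (l k).T.Ω) => ∀ j, nrm (qht f h k ω j) ≤ 2 ^ (δ * (S.F k).n) := key δ hδ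
      refine h1.mono (Eventually.of_forall fun k => ?_)
      intro (ω : (l k).T.Ω) _ h2
      have e1 : (l.sp.F k).n = (S.F k).n := (l k).hn
      rw [e1]
      exact h2 j)
    exact ⟨K, (sp_Sub l).mp hK, hTy⟩
  choose Kj hKj hTj using key1
  have hK : S.Sub (fun k => ∑ j, Kj j k) := Sub_sum Kj hKj
  have hgd : Typ (S := l.sp) fun k (ω : (l k).T.Ω) => qgd f h (fun k => ∑ j, Kj j k) k ω := by
    refine (Typ_all (S := l.sp) _ hTj).mono ?_
    have h2 : ∀ᶠ k in UF, ∀ j, 0 ≤ Kj j k := (eventually_all).mpr fun j => (hKj j).1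
    filter_upwards [h2] with k hk ω _ hh j
    exact (hh j).trans (Finset.single_le_sum (f := fun j => Kj j k) (fun i _ => hk i) (Finset.mem_univ j))
  refine ⟨qV f h t.Q _, fun k => inf_le_left, ?_, qV_tlb f h t.Q _ hX hgd fun i => (hz.win b i hb.le hb1).2,
    ⟨qfr f h t.Q _ hc hb hw hwe hK hz.pt⟩⟩
  refine ple_inf3 (S := l.ovr e he) (PLe.refl _) ?_ ?_
  · exact ple_cell_zero (S := l.ovr e he) (qB (he := he) f h _) 0 hgd (fun k ω a i => if_pos a) _
  · exact ple_cell_zero (S := l.ovr e he) (qY f h t.Q _) 1 hgd (fun k ω a i => if_pos a) _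

/-- **FRAMES OF ZOOMS** (FRQ) -/
theorem frq [Finite ι] {s : MSys S M E ι} {w : Fin M → ℝ} (hw : ∀ j, 1 ≤ w j) {c e : ℝ} (hc : 0 ≤ c) {he : 0 < e}
    (hwe : ∀ j, w j * c + e ≤ 1) {l : Lab S} (hl : TLb s c l) (f : Frm s.Q l fun j => w j * c) {E' : ℕ → ℕ}
    {t : MSys (l.ovr e he) M E' ι} (hz : Gz s l c e he f.X t)
    (hT : ∀ z, 0 ≤ z → (∀ j, w j * z < 1) → (M : ℝ) - (∑ i, w i) * z ≤ volKO s (rbot S) z)
    (hC : ∀ z, 0 ≤ z → (∀ j, w j * z < 1) →
      ∃ X : Rsl S, TLb s z (Lab.ofZ X) ∧ Nonempty (Frm s.Q (Lab.ofZ X) fun j => w j * z))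
    {b : ℝ} (hb : 0 ≤ b) (hwb : ∀ j, w j * b < 1) :
    ∃ V : Rsl (l.ovr e he), TLb t b (Lab.ofZ V) ∧ Nonempty (Frm t.Q (Lab.ofZ V) fun j => w j * b) := by
  rcases isEmpty_or_nonempty (Fin M) with hM | ⟨⟨i0⟩⟩
  · exact ⟨fun _ => ⊤, tlb_top t b, ⟨frz t.Q _ fun i => hM.elim i⟩⟩
  rcases hb.eq_or_lt with h0 | hb0
  · subst h0
    exact ⟨fun _ => ⊤, tlb_top t 0, ⟨frz t.Q _ fun i => mul_zero _⟩⟩
  have hb1 : b ≤ 1 := by
    have h1 := hwb i0
    have h2 := mul_le_mul_of_nonneg_right (hw i0) hb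
    linarith
  have hcc : c ≤ c + e * b := by
    have := mul_nonneg he.le hb
    linarith
  have hwc : ∀ j, w j * (c + e * b) < 1 := fun j => by
    have h1 := mul_lt_mul_of_pos_left (hwb j) he
    have h2 := hwe j
    nlinarith
  obtain ⟨X, hX, ⟨h⟩⟩ := hC (c + e * b) (hc.trans hcc) hwc
  obtain ⟨V, -, -, h1, h2⟩ := frq_lit hw hc hwe hl f hz hT hC hb0 hb1 hwb hX h
  exact ⟨V, h1, h2⟩

end

end Pool.Agent.Helper85.ZMY
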