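import Pool.Agent.Helper81.CPY.Zmc

/-! ZOOMS OVER ARBITRARY LABELS ON EVENTS OF EXTENSIONS: an event of an extension of the space over a label is the space
over the restricted label. -/

set_option autoImplicit false

namespace Pool.Agent.Helper85.ZMY

open Finset Filter Topology Matrix Pool.Agent.Helper69.RK Pool.Agent.Helper31.EC Pool.Agent.Helper31.EC.Sp
open Pool.Agent.Helper40.EL Pool.Agent.Helper84.MT Pool.Agent.Helper36.AM Pool.Agent.Helper81.CPY

noncomputable section

variable {S T : Sp} {M : ℕ} {E E' : ℕ → ℕ} {ι κ : Type}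

/-- an extension of the space over a label, seen over the space of the label -/
def unl {l : Lab S} {e : ℝ} {he : 0 < e} (p : Pj T (l.ovr e he)) : Sp where
  F := fun k => { T.F k with
    Z := Setoid.comap (p.π k) (l.sp.F k).Z
    n := (T.F k).n / e
    pos := div_pos (T.F k).pos he }
  lim := T.lim.atTop_div_const he

/-- the projection to the space of the label -/
def ptl {l : Lab S} {e : ℝ} {he : 0 < e} (p : Pj T (l.ovr e he)) : Pj (unl p) l.sp where
  π := p.π
  law := p.law
  hZ := fun _ _ _ _ _ => Iff.rfl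
  hn := fun k => by
    show (T.F k).n / e = (l.sp.F k).n
    rw [p.hn k]
    show e * (l.sp.F k).n / e = _
    rw [mul_div_cancel_left₀ _ he.ne']

/-- the label on an event of an extension of its space -/
def imx (l : Lab S) (q : Pj T l.sp) (A : ∀ k, (T.F k).Ω → Prop) : Lab (Sp.im (q.comp l.pj) A) := fun k => {
  T := (Sp.im q A).F k
  p := {
    π := (l k).p.π
    law := by
      classical
      have h1 := push_comp (q.π k) (l k).p.π ((T.F k).rest (A k)).μ
      exact h1.symm
    hZ := fun ω ω' h h' => (l k).p.hZ ω ω' (FSp.im_supp (q.fp k) (A k) ω h) (FSp.im_supp (q.fp k) (A k) ω' h') }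
  hn := (l k).hn
  V := (l k).V }

theorem imx_ovr (l : Lab S) {e : ℝ} {he : 0 < e} (p : Pj T (l.ovr e he)) (A : ∀ k, (T.F k).Ω → Prop) :
    (imx l (ptl p) A).ovr e he = Sp.im p A := rfl

theorem ptl_pr {l : Lab S} {e : ℝ} {he : 0 < e} (p : Pj T (l.ovr e he)) (A : ∀ k, (T.F k).Ω → Prop) :
    (unl p).pr A = T.pr A := rfl

/-! ### leaks -/

section leak

variable {l : Lab S} (q : Pj T l.sp) (A : ∀ k, (T.F k).Ω → Prop)

/-- the leak of the label on the event -/
theorem imx_leak (X : Part S) (k : ℕ) :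
    T.pr A k * (imx l q A k).leak (X.im (q.comp l.pj) A k) ≤ (l k).leak (X k) + 1 := by
  have h1 := ((l k).ext (q.fp k) (q.hn k)).im_leak (A k) (X k)
  rw [(l k).ext_leak (q.fp k) (q.hn k) (X k)] at h1
  have h2 : (((l k).ext (q.fp k) (q.hn k)).im (A k)).leak
      (FSp.imap ((l k).ext (q.fp k) (q.hn k)).p (A k) (X k)) = (imx l q A k).leak (X.im (q.comp l.pj) A k) :=
    (imx l q A k).ext_leak (FSp.imp (q.fp k) (A k)) (q.hn k) (X.im (q.comp l.pj) A k)
  rw [h2] at h1
  exact h1

theorem imx_nul (hA : 0 < ul (T.pr A)) {X : Part S} (h : Nul S fun k => (l k).leak (X k)) :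
    Nul (Sp.im (q.comp l.pj) A) fun k => (imx l q A k).leak (X.im (q.comp l.pj) A k) := by
  have hT : Nul T (fun k => (l k).leak (X k)) := by
    unfold Nul at h ⊢
    have e : (fun k => (l k).leak (X k) / (T.F k).n) = fun k => (l k).leak (X k) / (S.F k).n := by
      funext k
      rw [q.hn k]
      show (l k).leak (X k) / (l k).T.n = _
      rw [(l k).hn]
    rw [e]
    exact h
  have h1 : Nul T (fun k => (imx l q A k).leak (X.im (q.comp l.pj) A k)) :=
    Nul.div_pr hA hT (fun k => FLab.leak_nonneg _ _) (fun k => imx_leak q A X k)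
  unfold Nul at h1 ⊢
  have e : (fun k => (imx l q A k).leak (X.im (q.comp l.pj) A k) / ((Sp.im (q.comp l.pj) A).F k).n) =
      fun k => (imx l q A k).leak (X.im (q.comp l.pj) A k) / (T.F k).n := by
    funext k
    rw [(q.comp l.pj).hn k]
    rfl
  rw [e]
  exact h1

theorem imx_dmf (hA : 0 < ul (T.pr A)) {B : κ → Part S} (h : l.DMf B) :
    (imx l q A).DMf fun i => (B i).im (q.comp l.pj) A := fun i => imx_nul q A hA (h i)

end leak

/-! ### the informations over the label -/

theorem imx_up {l : Lab S} {e : ℝ} {he : 0 < e} (p : Pj T (l.ovr e he)) (A : ∀ k, (T.F k).Ω → Prop) (X : Part S) :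
    (imx l (ptl p) A).up e he (X.im ((ptl p).comp l.pj) A) = (l.up e he X).im p A := by
  funext k
  show (frb ((Sp.im (ptl p) A).F k) (l k).V e he).map ((imx l (ptl p) A k).p.map
    (FSp.imap (((ptl p).comp l.pj).fp k) (A k) (X k))) =
      FSp.imap (p.fp k) (A k) ((frb (l k).T (l k).V e he).map ((l k).p.map (X k)))
  induction X k using fc_ind
  rfl

/-! ### frames -/

/-- the frame on the event -/
def frmx {l : Lab S} (q : Pj T l.sp) (A : ∀ k, (T.F k).Ω → Prop) {Q : S.VV M} {La : Fin M → ℝ} (f : Frm Q l La) :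
    Frm (Q.im (q.comp l.pj) A) (imx l q A) La where
  X := VV.im q A f.X
  P := f.P
  tri := f.tri
  red := f.red
  fn := by
    filter_upwards [f.fn] with k hk ω ω' a b c d
    exact hk _ _ (FSp.im_supp (q.fp k) (A k) ω a) (FSp.im_supp (q.fp k) (A k) ω' b) c d
  bd := by
    obtain ⟨K, hK, h⟩ := f.bd
    refine ⟨K, hK, ?_⟩
    filter_upwards [h] with k hk ω hω
    exact hk _ (FSp.im_supp (q.fp k) (A k) ω hω)
  pt := by
    obtain ⟨K, hK, h⟩ := f.pt
    refine ⟨K, hK, ?_⟩
    filter_upwards [h] with k hk ω hω j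
    exact hk _ (FSp.im_supp (q.fp k) (A k) ω hω) j

/-- A ZOOM ON AN EVENT OF AN EXTENSION IS A ZOOM over the restricted label -/
theorem gzfx_im {s : MSys S M E ι} {l : Lab S} {La : Fin M → ℝ} {f : Frm s.Q l La} {c e : ℝ} {he : 0 < e}
    {t : MSys (l.ovr e he) M E' ι} (ht : Gzf s l f c e he t) (p : Pj T (l.ovr e he)) (A : ∀ k, (T.F k).Ω → Prop)
    (hA : 0 < ul (T.pr A)) : Gzf (s.im ((ptl p).comp l.pj) A hA) (imx l (ptl p) A) (frmx (ptl p) A f) c e he
      (t.im p A hA) := by
  refine ⟨⟨?_, ?_⟩, ?_⟩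
  · obtain ⟨K, hK, h⟩ := ht.pt
    refine ⟨K, hK, ?_⟩
    filter_upwards [h] with k hk ω hω
    exact hk ω (FSp.im_supp (p.fp k) (A k) ω hω)
  · intro b i h0 h1
    have h2 := ht.win b i h0 h1
    have h3 := imx_up p A ((s.lf i).win (c + e * b))
    have h4 := ple_im p A hA h2.1
    have h5 := ple_im p A hA h2.2
    rw [← h3] at h4 h5
    exact ⟨h4, h5⟩
  · intro i
    obtain ⟨h1, o, h2, h3⟩ := ht.lfr i
    exact ⟨h1, o, h2, typ_im (ptl p) A hA h3⟩

end

end Pool.Agent.Helper85.ZMY
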