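import Pool.Agent.Helper85.ZMY.Imx
import Pool.Agent.Helper52.MW.Ime
import Pool.Agent.Helper29.MX.Bas

/-! CLAUSES OF ZOOMS ON ALL EVENTS OF ALL EXTENSIONS from the clauses of zooms for one law. -/

set_option autoImplicit false

namespace Pool.Agent.Helper85.ZMY

open Finset Filter Topology Matrix Pool.Agent.Helper69.RK Pool.Agent.Helper31.EC Pool.Agent.Helper31.EC.Sp
open Pool.Agent.Helper40.EL Pool.Agent.Helper84.MT Pool.Agent.Helper36.AM Pool.Agent.Helper81.CPY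
open Pool.Agent.Helper29.MX
open Pool.Agent.Helper52.MW (AllE_im AllE_self)

noncomputable section

variable {S T : Sp} {M : ℕ} {E E' : ℕ → ℕ} {ι κ : Type}

/-- A ZOOM ON AN EVENT OF AN EXTENSION IS A ZOOM over the restricted label, any leaves -/
theorem gzx_im {s : MSys S M E ι} {l : Lab S} {La : Fin M → ℝ} {f : Frm s.Q l La} {c e : ℝ} {he : 0 < e}
    {t : MSys (l.ovr e he) M E' ι} (ht : Gz s l c e he f.X t) (p : Pj T (l.ovr e he)) (A : ∀ k, (T.F k).Ω → Prop)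
    (hA : 0 < ul (T.pr A)) : Gz (s.im ((ptl p).comp l.pj) A hA) (imx l (ptl p) A) c e he (frmx (ptl p) A f).X
      (t.im p A hA) := by
  refine ⟨?_, ?_⟩
  · obtain ⟨K, hK, h⟩ := ht.pt
    refine ⟨K, hK, ?_⟩
    filter_upwards [h] with k hk ω hω
    exact hk ω (FSp.im_supp (p.fp k) (A k) ω hω)
  · intro b i h0 h1
    have h2 := ht.win b i h0 h1
    have h3 := imx_up p A ((s.lf i).win (c + e * b))
    have h4 := ple_im p A hA h2.1
    have h5 := ple_im p A hA h2.2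
    rw [← h3] at h4 h5
    exact ⟨h4, h5⟩

/-- type-labels on events -/
theorem tlb_imx {s : MSys S M E ι} {l : Lab S} {c : ℝ} (hl : TLb s c l) (q : Pj T l.sp) (A : ∀ k, (T.F k).Ω → Prop)
    (hA : 0 < ul (T.pr A)) : TLb (s.im (q.comp l.pj) A hA) c (imx l q A) := by
  intro i
  have h1 := imx_nul q A hA (X := (s.lf i).win c) (hl i)
  exact h1

/-- **CLAUSES OF ZOOMS ON ALL EVENTS** from the theorem for one law -/
theorem allE_gz {Hs : ∀ S : Sp, MSys S M E ι → Rsl S → Prop} {Ht : ∀ S : Sp, MSys S M E' ι → Rsl S → Prop}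
    {La : Fin M → ℝ} {c e : ℝ} {he : 0 < e}
    (key : ∀ (S : Sp) (s : MSys S M E ι) (l : Lab S) (f : Frm s.Q l La) (t : MSys (l.ovr e he) M E' ι),
      AllE Hs S s (rbot S) → TLb s c l → Gz s l c e he f.X t → Ht _ t (rbot _))
    {s : MSys S M E ι} (hs : AllE Hs S s (rbot S)) {l : Lab S} (f : Frm s.Q l La) (hl : TLb s c l)
    {t : MSys (l.ovr e he) M E' ι} (hz : Gz s l c e he f.X t) : AllE Ht _ t (rbot (l.ovr e he)) := by
  intro T p A hA
  obtain ⟨q, hq⟩ : ∃ q : Pj (unl p) S, q = (ptl p).comp l.pj := ⟨_, rfl⟩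
  have h1 : AllE Hs (Sp.im ((ptl p).comp l.pj) A) (s.im ((ptl p).comp l.pj) A hA) (rbot S) :=
    AllE_im hs ((ptl p).comp l.pj) A hA
  exact key (Sp.im ((ptl p).comp l.pj) A) (s.im ((ptl p).comp l.pj) A hA) (imx l (ptl p) A)
    (frmx (ptl p) A f) (t.im p A hA) h1 (tlb_imx hl (ptl p) A hA) (gzx_im hz p A hA)

end

end Pool.Agent.Helper85.ZMY
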