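import Pool.Agent.Helper18.TRF.Scl
import Pool.Agent.Helper31.EC.Pj

/-! TRIANGULAR MAPS IN SCALED COORDINATES: `hat d P = D⁻¹ ∘ P ∘ D`, compositions, transitions, sizes. -/

set_option autoImplicit false

namespace Pool.Agent.Helper85.ZMY

open Finset MvPolynomial Pool.Agent.Helper77.WDG
open Pool.Agent.Helper18.TRF (scl coeff_scl support_scl vars_scl eval_scl deg_scl)

noncomputable section

variable {M : ℕ} {P Q R : Fin M → MvPolynomial (Fin M) ℝ} {d : Fin M → ℝ}

/-! ### the group of triangular maps -/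

theorem tm_inj {P Q : Fin M → MvPolynomial (Fin M) ℝ} (h : ∀ j, tm P j = tm Q j) : P = Q := by
  funext j
  have h1 := h j
  unfold tm at h1
  exact add_left_cancel h1

theorem cmp_assoc (P Q R : Fin M → MvPolynomial (Fin M) ℝ) : cmp (cmp P Q) R = cmp P (cmp Q R) := by
  apply tm_inj
  intro j
  have h1 : tm (cmp P (cmp Q R)) j = bind₁ (tm (cmp Q R)) (tm P j) := (bind_cmp (P := P) (Q := cmp Q R) j).symm
  have h2 : tm (cmp (cmp P Q) R) j = bind₁ (tm R) (tm (cmp P Q) j) := (bind_cmp (P := cmp P Q) (Q := R) j).symm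
  have h3 : tm (cmp P Q) j = bind₁ (tm Q) (tm P j) := (bind_cmp (P := P) (Q := Q) j).symm
  have h4 : ∀ i, bind₁ (tm R) (tm Q i) = tm (cmp Q R) i := fun i => bind_cmp (P := Q) (Q := R) i
  rw [h1, h2, h3, bind₁_bind₁]
  exact bind_congr fun i _ => h4 i

theorem cmp_inv_right (hP : Tri P) : cmp P (inv P) = 0 := by
  apply tm_inj
  intro j
  rw [← bind_cmp, bind_inv_right hP]
  show X j = X j + 0
  rw [add_zero]

theorem cmp_inv_left (hP : Tri P) : cmp (inv P) P = 0 := by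
  apply tm_inj
  intro j
  rw [← bind_cmp, bind_inv_left hP]
  show X j = X j + 0
  rw [add_zero]

theorem zero_cmp (P : Fin M → MvPolynomial (Fin M) ℝ) : cmp 0 P = P := by
  funext j
  show P j + bind₁ (tm P) 0 = P j
  rw [map_zero, add_zero]

/-- transitions compose -/
theorem trs_trs (hQ : Tri Q) : cmp (trs P Q) (trs Q R) = trs P R := by
  unfold trs
  rw [cmp_assoc, ← cmp_assoc Q, cmp_inv_right hQ, zero_cmp]

/-! ### scaled coordinates -/

/-- `D⁻¹ ∘ P ∘ D` -/
def hat (d : Fin M → ℝ) (P : Fin M → MvPolynomial (Fin M) ℝ) (j : Fin M) : MvPolynomial (Fin M) ℝ :=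
  scl (d j)⁻¹ d (P j)

theorem hat_tm (hd : ∀ j, d j ≠ 0) (Q : Fin M → MvPolynomial (Fin M) ℝ) (a : Fin M) :
    bind₁ (fun a => C (d a) * X a) (tm Q a) = C (d a) * tm (hat d Q) a := by
  unfold tm hat scl
  rw [map_add, bind₁_X_right, mul_add, ← mul_assoc (C (d a)) (C (d a)⁻¹), ← C_mul, mul_inv_cancel₀ (hd a), C_1,
    one_mul]

theorem hat_cmp (hd : ∀ j, d j ≠ 0) (P Q : Fin M → MvPolynomial (Fin M) ℝ) :
    hat d (cmp P Q) = cmp (hat d P) (hat d Q) := by
  funext j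
  have h1 : bind₁ (tm (hat d Q)) (hat d P j) =
      C (d j)⁻¹ * bind₁ (fun a => C (d a) * X a) (bind₁ (tm Q) (P j)) := by
    unfold hat scl
    rw [map_mul, bind₁_C_right, bind₁_bind₁, bind₁_bind₁]
    congr 1
    have h2 : (fun i => bind₁ (tm fun j => C (d j)⁻¹ * bind₁ (fun a => C (d a) * X a) (Q j))
        (C (d i) * X i : MvPolynomial (Fin M) ℝ)) = fun i => bind₁ (fun a => C (d a) * X a) (tm Q i) := by
      funext i
      rw [hat_tm hd, map_mul, bind₁_C_right, bind₁_X_right]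
      rfl
    rw [h2]
  show scl (d j)⁻¹ d (Q j + bind₁ (tm Q) (P j)) = hat d Q j + bind₁ (tm (hat d Q)) (hat d P j)
  rw [h1]
  unfold hat scl
  rw [map_add, mul_add]

theorem Tri.hat (hP : Tri P) (d : Fin M → ℝ) : Tri (hat d P) := fun j i hi => hP j i (vars_scl hi)

theorem hat_deg {D : ℕ} (h : ∀ j, (P j).totalDegree ≤ D) (j : Fin M) : (hat d P j).totalDegree ≤ D := deg_scl (h j)

/-- values -/
theorem eval_tm_hat (hd : ∀ j, d j ≠ 0) (x : Fin M → ℝ) (j : Fin M) :
    eval x (tm (hat d P) j) = (d j)⁻¹ * eval (fun a => d a * x a) (tm P j) := by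
  rw [eval_tm, eval_tm]
  unfold hat
  rw [eval_scl, mul_add, ← mul_assoc, inv_mul_cancel₀ (hd j), one_mul]

/-! ### sizes -/

/-- the coefficients of a triangular map -/
theorem coeff_tm (hP : Tri P) {j : Fin M} {a : Fin M →₀ ℕ} (ha : a ∈ (P j).support) :
    (tm P j).coeff a = (P j).coeff a := by
  classical
  unfold tm
  rw [coeff_add, coeff_X, if_neg, zero_add]
  intro h
  have h1 : j ∈ (P j).vars := by
    rw [mem_vars_iff_mem_support]
    refine ⟨a, ha, ?_⟩
    rw [← h, Finsupp.mem_support_iff, Finsupp.single_eq_same]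
    exact one_ne_zero
  exact lt_irrefl _ (hP j j h1)

/-- SIZES of the scaled map from the sizes of the map in two scales -/
theorem hat_le (hP : Tri P) {j : Fin M} {dx dy : Fin M → ℝ} (hx : ∀ i, 0 < dx i) (hy : ∀ i, 0 < dy i)
    (hd : ∀ i, 0 < d i) {θ B : ℝ} (hθ : 0 ≤ θ) (hB : nrm (scl (dx j)⁻¹ dy (tm P j)) ≤ B)
    (h : ∀ a ∈ (P j).support, (d j)⁻¹ * ∏ i, d i ^ a i ≤ θ * ((dx j)⁻¹ * ∏ i, dy i ^ a i)) :
    nrm (hat d P j) ≤ θ * B := by
  have h1 : nrm (hat d P j) ≤ θ * nrm (scl (dx j)⁻¹ dy (tm P j)) := by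
    rw [nrm_eq_sum (P := hat d P j) (s := (P j).support) fun a ha => support_scl ha]
    have h2 : nrm (scl (dx j)⁻¹ dy (tm P j)) ≥ ∑ a ∈ (P j).support, |(scl (dx j)⁻¹ dy (tm P j)).coeff a| := by
      rw [nrm_eq_sum (P := scl (dx j)⁻¹ dy (tm P j)) (s := (P j).support ∪ (scl (dx j)⁻¹ dy (tm P j)).support)
        Finset.subset_union_right]
      exact Finset.sum_le_sum_of_subset_of_nonneg Finset.subset_union_left fun _ _ _ => abs_nonneg _
    refine le_trans ?_ (mul_le_mul_of_nonneg_left h2 hθ)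
    rw [Finset.mul_sum]
    refine Finset.sum_le_sum fun a ha => ?_
    unfold hat
    rw [coeff_scl, coeff_scl, coeff_tm hP ha]
    have p1 : 0 < (d j)⁻¹ := inv_pos.2 (hd j)
    have p2 : 0 < (dx j)⁻¹ := inv_pos.2 (hx j)
    have p3 : 0 < ∏ i, d i ^ a i := Finset.prod_pos fun i _ => pow_pos (hd i) _
    have p4 : 0 < ∏ i, dy i ^ a i := Finset.prod_pos fun i _ => pow_pos (hy i) _
    rw [abs_mul, abs_mul, abs_mul, abs_mul, abs_of_pos p1, abs_of_pos p2, abs_of_pos p3, abs_of_pos p4]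
    have h3 := mul_le_mul_of_nonneg_right (h a ha) (abs_nonneg ((P j).coeff a))
    calc (d j)⁻¹ * (|(P j).coeff a| * ∏ i, d i ^ a i) = (d j)⁻¹ * (∏ i, d i ^ a i) * |(P j).coeff a| := by ring
      _ ≤ θ * ((dx j)⁻¹ * ∏ i, dy i ^ a i) * |(P j).coeff a| := h3
      _ = θ * ((dx j)⁻¹ * (|(P j).coeff a| * ∏ i, dy i ^ a i)) := by ring
  exact h1.trans (mul_le_mul_of_nonneg_left hB hθ)

/-- products of scales -/
theorem prod_dl (S : Pool.Agent.Helper31.EC.Sp) (w : Fin M → ℝ) (c : ℝ) (k : ℕ) (a : Fin M →₀ ℕ) :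
    ∏ i, S.dl (w i * c) k ^ a i = S.dl (wt w a * c) k := by
  unfold Pool.Agent.Helper31.EC.Sp.dl wt
  have h1 : ∀ i ∈ (Finset.univ : Finset (Fin M)), ((2 : ℝ) ^ (-(w i * c * (S.F k).n))) ^ a i =
      (2 : ℝ) ^ (-(w i * c * (S.F k).n) * a i) := fun i _ => by
    rw [← Real.rpow_natCast, ← Real.rpow_mul (by norm_num)]
  rw [Finset.prod_congr rfl h1, ← Real.rpow_sum_of_pos (by norm_num)]
  congr 1
  rw [Finset.sum_mul, Finset.sum_mul, ← Finset.sum_neg_distrib]
  exact Finset.sum_congr rfl fun i _ => by ring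

/-- the gap of the weights -/
theorem exists_gap (w : Fin M → ℝ) (hw : ∀ j, 0 < w j) (W : ℕ) : ∃ γ : ℝ, 0 ≤ γ ∧ γ < 1 ∧
    ∀ (j : Fin M) (a : Fin M →₀ ℕ), (a.sum fun _ n => n) ≤ W → wt w a < w j → wt w a ≤ γ * w j := by
  classical
  have hfin : {a : Fin M →₀ ℕ | (a.sum fun _ n => n) ≤ W}.Finite := by
    refine Set.Finite.of_finite_image (f := fun a => fun i => a i) (Set.Finite.subset
      (Set.Finite.pi' (t := fun _ : Fin M => Set.Iic W) fun _ => Set.finite_Iic W) ?_) ?_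
    · rintro _ ⟨a, ha, rfl⟩ i
      have h2 : a i ≤ a.sum fun _ n => n := by
        by_cases h0 : a i = 0
        · rw [h0]
          exact Nat.zero_le _
        · exact Finset.single_le_sum (f := fun j => a j) (fun _ _ => Nat.zero_le _) (Finsupp.mem_support_iff.2 h0)
      exact h2.trans ha
    · intro a _ b _ h
      exact Finsupp.ext fun i => congrFun h i
  obtain ⟨F, hF⟩ : ∃ F : Finset (Fin M →₀ ℕ), ∀ a : Fin M →₀ ℕ, (a.sum fun _ n => n) ≤ W → a ∈ F :=
    ⟨hfin.toFinset, fun a ha => by rw [Set.Finite.mem_toFinset]; exact ha⟩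
  set r : Fin M × (Fin M →₀ ℕ) → ℝ := fun x => if wt w x.2 < w x.1 then wt w x.2 / w x.1 else 0 with hr
  set G : Finset ℝ := insert 0 (((Finset.univ : Finset (Fin M)) ×ˢ F).image r) with hG
  have hne : G.Nonempty := ⟨0, Finset.mem_insert_self _ _⟩
  refine ⟨G.max' hne, Finset.le_max' _ _ (Finset.mem_insert_self _ _), ?_, ?_⟩
  · rw [Finset.max'_lt_iff]
    intro y hy
    rw [hG, Finset.mem_insert, Finset.mem_image] at hy
    rcases hy with rfl | ⟨x, _, rfl⟩
    · exact one_pos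
    · rw [hr]
      simp only
      split_ifs with h
      · exact (div_lt_one (hw _)).2 h
      · exact one_pos
  · intro j a ha h
    have h1 : r (j, a) ∈ G := by
      rw [hG]
      exact Finset.mem_insert_of_mem (Finset.mem_image.2 ⟨(j, a), by
        rw [Finset.mem_product]
        exact ⟨Finset.mem_univ _, hF a ha⟩, rfl⟩)
    have h2 : r (j, a) ≤ G.max' hne := Finset.le_max' G _ h1
    have h3 : r (j, a) = wt w a / w j := by
      rw [hr]
      simp only
      rw [if_pos h]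
    have h4 : wt w a / w j ≤ G.max' hne := h3 ▸ h2
    exact (div_le_iff₀ (hw j)).1 h4

end

end Pool.Agent.Helper85.ZMY
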