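import Pool.Agent.Helper18.TRF.Fro
import Pool.Agent.Helper29.MX.Bas

/-! LABELS REFINED BY A LITERAL PARTITION of the space, the probability space of the label is unchanged. -/

set_option autoImplicit false

namespace Pool.Agent.Helper85.ZMY

open Finset Filter Topology Pool.Agent.Helper69.RK Pool.Agent.Helper31.EC Pool.Agent.Helper31.EC.Sp
open Pool.Agent.Helper40.EL Pool.Agent.Helper89.LX Pool.Agent.Helper3.LF Pool.Agent.Helper84.MT
open Pool.Agent.Helper18.TRF (Rfn)
open Pool.Agent.Helper29.MX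

noncomputable section

variable {S : Sp} {M : ℕ} {E : ℕ → ℕ} {ι : Type}

/-- the label `L` refined by the partition `X` of the space -/
def ltx (L : Lab S) (X : Rsl S) : Lab S := fun k =>
  { T := (L k).T
    p := (L k).p
    hn := (L k).hn
    V := (L k).V ⊓ Setoid.comap (L k).p.π (X k) }

def ltx_lab (L : Lab S) (X : Rsl S) : Rfn (ltx L X) L where
  q := fun k => ⟨fun ω => ω, (FLab.triv (L k).T).p.law, fun _ _ _ _ => Iff.rfl⟩
  hn := fun _ => rfl
  pr := fun _ _ _ => rfl
  lb := fun _ _ _ _ _ _ h => h.1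

def ltx_lit (L : Lab S) (X : Rsl S) : Rfn (ltx L X) (Lab.ofZ X) where
  q := fun k => (L k).p
  hn := fun k => (L k).hn
  pr := fun _ _ _ => rfl
  lb := fun _ _ _ _ _ _ h => h.2

theorem tlb_ltx {s : MSys S M E ι} {c : ℝ} {L : Lab S} {X : Rsl S} (hL : TLb s c L) (hX : TLb s c (Lab.ofZ X)) :
    TLb s c (ltx L X) := by
  intro i
  refine ((hL i).add (hX i)).of_le (Eventually.of_forall fun k => (ltx L X k).leak_nonneg _)
    (Eventually.of_forall fun k => ?_)
  have e1 : (Lab.ofZ X k).leak ((s.lf i).win c k) = h (fc (X k)) ((s.lf i).win c k) :=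
    Lab.ofZ_leak X (fun k => (s.lf i).win c k) k
  rw [e1, add_comm]
  have e2 : (ltx L X k).leak ((s.lf i).win c k) = I (L := FL (L k).T) ((L k).p.map (fc (X k)) ⊔ (L k).v) (L k).p.top
      ((L k).p.map ((s.lf i).win c k)) := by
    show I (L := FL (L k).T) ((L k).v ⊔ (L k).p.map (fc (X k))) (L k).p.top
      ((L k).p.map ((s.lf i).win c k)) = _
    rw [sup_comm]
  rw [e2, I_chain]
  refine add_le_add ?_ ?_
  · refine (I_le_h_left _ _ _).trans (le_of_eq ?_)
    exact (L k).p.h_map _ _
  · exact leak_cond le_sup_right (sup_le ((L k).p.map_le_top _) ((L k).p.map_le_top _))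

theorem tlb_mono {s : MSys S M E ι} {c c' : ℝ} (h : c ≤ c') {L : Lab S} (hL : TLb s c L) : TLb s c' L := by
  intro i
  have h1 : PLe ((s.lf i).win c) ((s.lf i).win c') := (s.lf i).win_mono h
  exact ((hL i).add h1).of_le (Eventually.of_forall fun k => (L k).leak_nonneg _)
    (Eventually.of_forall fun k => (L k).leak_le_leak _ _)

end

end Pool.Agent.Helper85.ZMY
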