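import Pool.Agent.Helper26.BXD.Use
import Pool.Agent.Helper77.WDG.Nrm

/-! POLYNOMIALS KNOWN TO THE BASE with tame values at the point have tame coefficients, if there is no gain. -/

set_option autoImplicit false

namespace Pool.Agent.Helper85.ZMY

open Finset Filter Topology Matrix MvPolynomial Pool.Agent.Helper69.RK Pool.Agent.Helper31.EC
  Pool.Agent.Helper31.EC.Sp
open Pool.Agent.Helper40.EL Pool.Agent.Helper89.LX Pool.Agent.Helper3.LF Pool.Agent.Helper84.MT
open Pool.Agent.Helper77.WDG (nrm nrm_nonneg nrm_sum_le nrm_mul_le nrm_C nrm_monomial)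
open Pool.Agent.Helper26.BXD (NG Fm noalg)

noncomputable section

variable {S : Sp} {M D : ℕ} {κ : Type}

/-- the vector of the coefficients -/
def cof (D : ℕ) (p : MvPolynomial (Fin M) ℝ) : Mon M D → ℝ := fun a => p.coeff a.ex

theorem pol_cof {p : MvPolynomial (Fin M) ℝ} (h : p.totalDegree ≤ D) : pol (cof D p) = p := by
  obtain ⟨c, hc⟩ := exists_pol p h
  have h1 : cof D p = c := funext fun a => by
    show p.coeff a.ex = c a
    rw [hc, coeff_pol]
  rw [h1, hc]

theorem eval_cof {p : MvPolynomial (Fin M) ℝ} (h : p.totalDegree ≤ D) (x : Fin M → ℝ) :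
    cof D p ⬝ᵥ vv x = eval x p := by
  rw [← eval_pol, pol_cof h]

theorem nrm_cof {p : MvPolynomial (Fin M) ℝ} (h : p.totalDegree ≤ D) : nrm p ≤ ∑ a : Mon M D, |cof D p a| := by
  have h1 : nrm p = nrm (pol (cof D p)) := by rw [pol_cof h]
  rw [h1]
  unfold pol
  refine (nrm_sum_le _ _).trans (Finset.sum_le_sum fun a _ => ?_)
  refine (nrm_mul_le _ _).trans ?_
  rw [nrm_C]
  unfold Mon.mon
  rw [nrm_monomial, abs_one, mul_one]

/-- the rank one form of a vector -/
def rk1 (c : Mon M D → ℝ) : Matrix (Mon M D) (Mon M D) ℝ := fun a b => c a * c b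

theorem rk1_qf (c x : Mon M D → ℝ) : x ⬝ᵥ (rk1 c *ᵥ x) = (c ⬝ᵥ x) ^ 2 := by
  have h1 : rk1 c *ᵥ x = fun a => c a * (c ⬝ᵥ x) := by
    funext a
    show ∑ b, c a * c b * x b = c a * ∑ b, c b * x b
    rw [Finset.mul_sum]
    exact Finset.sum_congr rfl fun b _ => by ring
  rw [h1]
  show ∑ a, x a * (c a * (c ⬝ᵥ x)) = (c ⬝ᵥ x) ^ 2
  have h2 : ∀ a ∈ (Finset.univ : Finset (Mon M D)), x a * (c a * (c ⬝ᵥ x)) = c a * x a * (c ⬝ᵥ x) :=
    fun a _ => by ring
  rw [Finset.sum_congr rfl h2, ← Finset.sum_mul, pow_two]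
  rfl

theorem rk1_symm (c : Mon M D → ℝ) : (rk1 c).IsSymm := by
  ext a b
  show c b * c a = c a * c b
  ring

theorem abs_le_trace (c : Mon M D → ℝ) (a : Mon M D) : |c a| ≤ Real.sqrt (rk1 c).trace := by
  apply Real.le_sqrt_of_sq_le
  rw [sq_abs]
  have h1 : (rk1 c).trace = ∑ a, c a ^ 2 := by
    unfold Matrix.trace Matrix.diag rk1
    exact Finset.sum_congr rfl fun b _ => by ring
  rw [h1]
  exact Finset.single_le_sum (f := fun a => c a ^ 2) (fun b _ => sq_nonneg _) (Finset.mem_univ a)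

/-- **POLYNOMIALS KNOWN TO THE BASE** with tame values at a point without gain have tame coefficients -/
theorem noalg_pol [Finite κ] {C : LC S} {X : S.VV M} {A : κ → Part S} (hN : NG C X A)
    (p : ∀ k, (S.F k).Ω → MvPolynomial (Fin M) ℝ) (deg : ∀ k ω, (p k ω).totalDegree ≤ D)
    (fn : ∀ᶠ k in UF, ∀ ω ω', (S.F k).μ ω ≠ 0 → (S.F k).μ ω' ≠ 0 → (S.F k).Z ω ω' → p k ω = p k ω')
    (hv : ∀ η : ℝ, 0 < η → Typ (S := S) fun k ω => |eval (X.v k ω) (p k ω)| ≤ 2 ^ (η * (S.F k).n))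
    (δ : ℝ) (hδ : 0 < δ) : Typ (S := S) fun k ω => nrm (p k ω) ≤ 2 ^ (δ * (S.F k).n) := by
  classical
  set FMe : ℕ → Prop := fun k => ∀ ω ω', (S.F k).μ ω ≠ 0 → (S.F k).μ ω' ≠ 0 → (S.F k).Z ω ω' → p k ω = p k ω' with hFM
  set q : ∀ k, (S.F k).Ω → MvPolynomial (Fin M) ℝ := fun k ω => if FMe k then p k ω else 0 with hq
  have hqp : ∀ᶠ k in UF, ∀ ω, q k ω = p k ω := fn.mono fun k hk ω => if_pos hk
  have hqf : ∀ k ω ω', (S.F k).μ ω ≠ 0 → (S.F k).μ ω' ≠ 0 → (S.F k).Z ω ω' → q k ω = q k ω' := by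
    intro k ω ω' a b c
    by_cases h : FMe k
    · have e1 : q k ω = p k ω := if_pos h
      have e2 : q k ω' = p k ω' := if_pos h
      rw [e1, e2, h ω ω' a b c]
    · have e1 : q k ω = 0 := if_neg h
      have e2 : q k ω' = 0 := if_neg h
      rw [e1, e2]
  have hqd : ∀ k ω, (q k ω).totalDegree ≤ D := by
    intro k ω
    by_cases h : FMe k
    · have e1 : q k ω = p k ω := if_pos h
      rw [e1]
      exact deg k ω
    · have e1 : q k ω = 0 := if_neg h
      rw [e1, totalDegree_zero]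
      exact Nat.zero_le _
  have hl : Lab.DMf (S := S) (fun k => FLab.triv (S.F k)) A := by
    intro i
    have e : (fun k => (FLab.triv (S.F k)).leak (A i k)) = fun _ => 0 := funext fun k => FLab.triv_leak _
    show Nul S fun k => (FLab.triv (S.F k)).leak (A i k)
    rw [e]
    exact Nul_zero S
  have hC : C.ev (fun k => FLab.triv (S.F k)) := Eventually.of_forall fun k => C.triv k
  have key := noalg (D := D) hN hl hC
    { g := fun k ω => rk1 (cof D (q k ω))
      ms := fun k ω ω' a b _ d => by rw [hqf k ω ω' a b d]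
      sy := fun k ω => rk1_symm _
      nn := fun k ω x => by
        rw [rk1_qf]
        exact sq_nonneg _ } (fun η hη => by
      have h1 := hv (η / 2) (by linarith)
      refine squeeze_zero' (Eventually.of_forall fun k => FSp.pb_nonneg _ _) ?_ h1
      filter_upwards [hqp] with k hk
      apply FSp.pb_mono
      intro (ω : (S.F k).Ω) hω h2 h3
      apply h2
      show vv (X.v k ω) ⬝ᵥ (rk1 (cof D (q k ω)) *ᵥ vv (X.v k ω)) ≤ _
      rw [rk1_qf, eval_cof (hqd k ω), hk ω]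
      have h4 : |eval (X.v k ω) (p k ω)| ^ 2 ≤ ((2 : ℝ) ^ (η / 2 * (S.F k).n)) ^ 2 :=
        pow_le_pow_left₀ (abs_nonneg _) h3 2
      rw [sq_abs] at h4
      refine h4.trans (le_of_eq ?_)
      rw [← Real.rpow_natCast, ← Real.rpow_mul (by norm_num)]
      congr 1
      push_cast
      ring) δ hδ
  have hcS : S.Sub (fun _ => (Fintype.card (Mon M D) : ℝ)) := S.Sub_const (Nat.cast_nonneg _)
  refine squeeze_zero' (Eventually.of_forall fun k => Sp.mass_res_nonneg (S := S) k _) ?_ key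
  filter_upwards [hqp, hcS.eventually_le (half_pos hδ)] with k hk hc
  refine FSp.pb_mono (S.F k) (E := fun ω => ¬ nrm (p k ω) ≤ 2 ^ (δ * (S.F k).n)) ?_
  intro ω hω h2 h3
  apply h2
  have h3' : (rk1 (cof D (q k ω))).trace ≤ 2 ^ (δ * (S.F k).n) := h3
  have h4 : nrm (q k ω) ≤ ∑ a : Mon M D, |cof D (q k ω) a| := nrm_cof (hqd k ω)
  have h5 : Real.sqrt (rk1 (cof D (q k ω))).trace ≤ 2 ^ (δ / 2 * (S.F k).n) := by
    rw [Real.sqrt_le_left (by positivity), ← Real.rpow_natCast, ← Real.rpow_mul (by norm_num)]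
    refine h3'.trans (le_of_eq ?_)
    congr 1
    push_cast
    ring
  calc nrm (p k ω) = nrm (q k ω) := by rw [hk ω]
    _ ≤ ∑ a : Mon M D, |cof D (q k ω) a| := h4
    _ ≤ ∑ _a : Mon M D, (2 : ℝ) ^ (δ / 2 * (S.F k).n) := Finset.sum_le_sum fun a _ => (abs_le_trace _ a).trans h5
    _ = Fintype.card (Mon M D) * (2 : ℝ) ^ (δ / 2 * (S.F k).n) := by
        rw [Finset.sum_const, Finset.card_univ, nsmul_eq_mul]
    _ ≤ 2 ^ (δ / 2 * (S.F k).n) * (2 : ℝ) ^ (δ / 2 * (S.F k).n) :=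
        mul_le_mul_of_nonneg_right (by linarith) (by positivity)
    _ = 2 ^ (δ * (S.F k).n) := by
        rw [← Real.rpow_add (by norm_num)]
        congr 1
        ring

end

end Pool.Agent.Helper85.ZMY
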