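import Pool.Agent.Helper85.ZMY.Zcl
import Pool.Agent.Helper18.SRT.Src

/-! ROW `SRTR`. -/

set_option autoImplicit false

namespace Pool.Agent.Helper85.ZMY

open Pool.Agent.Helper29.MX

/-- **ROW `SRTR`** -/
theorem srtr (M : ℕ) : SRTR M := Pool.Agent.Helper7.RD.srtr (Pool.Agent.Helper18.SRT.srcx M) (zclx M)

end Pool.Agent.Helper85.ZMY
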