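import Pool.Agent.Helper85.ZMY.Alg
import Pool.Agent.Helper85.ZMY.Nap
import Pool.Agent.Helper18.TRF.Cmp
import Pool.Agent.Helper7.RD.Pf
import Pool.Agent.Helper29.MX.Bas

/-! TRANSITIONS BETWEEN FRAMES OF DIFFERENT WINDOWS, first part: a frame `f` with exponents `w_j x` and a frame `g` with
exponents `w_j y` over the same label, `x ≤ y`; the coordinates of `f` are polynomials of the coordinates of `g` with tame
coefficients, if the label is a type-label of the window `y` and the total number of the window `y` is exact. -/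

set_option autoImplicit false

namespace Pool.Agent.Helper85.ZMY

open Finset Filter Topology Matrix Pool.Agent.Helper69.RK Pool.Agent.Helper31.EC Pool.Agent.Helper31.EC.Sp
open Pool.Agent.Helper40.EL Pool.Agent.Helper89.LX Pool.Agent.Helper3.LF Pool.Agent.Helper84.MT
open Pool.Agent.Helper36.AM (Frm Gz Gzf Lfr inv_val inv_eq)
open Pool.Agent.Helper77.WDG (nrm nrm_nonneg nrm_le_of_coeff coeff_le_nrm Tri TriW tm cmp trs slv slv_unique tm_inv
  bind_cmp bind_tm wt wLt_iff cmp_totalDegree inv_totalDegree)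
open Pool.Agent.Helper18.TRF (scl eval_scl deg_scl ovr_dl ovr_Sub dl_inv_mul frm_deg0 frm_triW Rfn frx)
open Pool.Agent.Helper26.BXD (NG NG.of_volCO)
open Pool.Agent.Helper7.RD (FD0 volCO pR upz KLb_iff volP_self volP_cnA pfx_self)
open Pool.Agent.Helper7.GZ (ZU Rows Typ_all)
open Pool.Agent.Helper89.RAD (cnA)
open Pool.Agent.Helper29.MX

noncomputable section

variable {S T : Sp} {M : ℕ} {E : ℕ → ℕ} {ι : Type}

/-! ### units -/

theorem exists_unit (w : Fin M → ℝ) {y : ℝ} (h : ∀ j, w j * y < 1) :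
    ∃ e : ℝ, 0 < e ∧ e ≤ 1 ∧ ∀ j, w j * y + e ≤ 1 := by
  rcases isEmpty_or_nonempty (Fin M) with hM | hM
  · exact ⟨1, one_pos, le_rfl, fun j => hM.elim j⟩
  · obtain ⟨i, hi⟩ := Finite.exists_max fun j => w j * y
    refine ⟨min 1 (1 - w i * y), lt_min one_pos (by linarith [h i]), min_le_left _ _, fun j => ?_⟩
    have h1 := hi j
    have h2 := min_le_right 1 (1 - w i * y)
    linarith

theorem exists_bd (w : Fin M → ℝ) (hw : ∀ j, 1 ≤ w j) : ∃ W : ℕ, ∀ j, w j ≤ W := by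
  refine ⟨⌈∑ j, w j⌉₊, fun j => ?_⟩
  have h1 := Finset.single_le_sum (f := w) (fun i _ => zero_le_one.trans (hw i)) (Finset.mem_univ j)
  exact h1.trans (Nat.le_ceil _)

theorem exists_deg {Q : S.VV M} {L : Lab S} {w : Fin M → ℝ} (hw : ∀ j, 1 ≤ w j) {y : ℝ} (hy : 0 ≤ y)
    (g : Frm Q L fun j => w j * y) : ∃ κ : ℕ, ∀ k ω j, (g.P k ω j).totalDegree ≤ κ := by
  obtain ⟨W, hW⟩ := exists_bd w hw
  exact ⟨W, fun k ω j => frm_deg0 g hy hw hW k ω j⟩

/-! ### no gain in the box -/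

/-- NO GAIN over a type-label with a frame, exact total number -/
theorem frm_ng [Finite ι] {s : MSys S M E ι} {w : Fin M → ℝ} (hw : ∀ j, 1 ≤ w j) {y : ℝ} (hy : 0 ≤ y) {L : Lab S}
    (hL : TLb s y L) (g : Frm s.Q L fun j => w j * y) {e : ℝ} (he : 0 < e) (he1 : e ≤ 1) (h1 : ∀ j, w j * y + e ≤ 1)
    (hT : (M : ℝ) - (∑ i, w i) * y ≤ volKO s (rbot S) y) :
    NG (LC.kz (L.up e he (pR (rbot S)))) (g.X.chg L.V e he) (fun i => L.up e he (cnA s (pR (rbot S)) y i)) := by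
  obtain ⟨κ, hκ⟩ := exists_deg hw hy g
  have hF : ∃ F : FD0 s.Q L (fun j => w j * y), F.f = g ∧ F.c = 0 ∧ F.e = e := ⟨⟨g, 0, e, le_rfl, he, by linarith,
    fun j => mul_nonneg (zero_le_one.trans (hw j)) hy, h1, κ, hκ⟩, rfl, rfl, rfl⟩
  obtain ⟨F, hf, hc, hFe⟩ := hF
  subst hf
  subst hFe
  have hK := KLb_iff.mp ((tlb_iff s y L).mpr hL)
  have hX : Rows.IsX F.zu F.rows (F.f.X.chg L.V F.e F.he) := F.isX_of ⟨fun _ => 0, S.Sub_const le_rfl,
    Eventually.of_forall fun k ω _ j => by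
      show |F.f.X.v k ω j - F.f.X.v k ω j| ≤ _
      rw [sub_self, abs_zero, zero_mul]⟩
  have h2 := F.volP_le (A := cnA s (pR (rbot S)) y) (B := fun i => upz F.zu (cnA s (pR (rbot S)) y i)) hK.1
    (fun i => ⟨i, PLe.refl _⟩) hK.2 hX (le_refl M)
  have e0 : pfx (S := F.zu.sp) (VV.chg L.V F.e F.he F.f.X) (le_refl M) = VV.chg L.V F.e F.he F.f.X := pfx_self _
  rw [e0, pfx_self] at h2
  have h3 : volKO s (rbot S) y = volCO (LC.kz (pR (rbot S))) (cnA s (pR (rbot S)) y) s.Q := by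
    rw [← volP_self, volP_cnA, pfx_self]
  rw [← h3] at h2
  have h4 : ∑ i : Fin M, w (Fin.castLE (le_refl M) i) * y = (∑ i, w i) * y := by
    rw [Finset.sum_mul]
    exact Finset.sum_congr rfl fun i _ => rfl
  rw [h4] at h2
  refine NG.of_volCO ?_
  have h5 : F.e * (M - volCO (LC.kz (upz F.zu (pR (rbot S)))) (fun i => upz F.zu (cnA s (pR (rbot S)) y i))
      (F.f.X.chg L.V F.e F.he)) ≤ 0 := by linarith
  have h6 : M - volCO (LC.kz (upz F.zu (pR (rbot S)))) (fun i => upz F.zu (cnA s (pR (rbot S)) y i))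
      (F.f.X.chg L.V F.e F.he) ≤ 0 := by
    by_contra hcon
    have := mul_pos he (not_le.1 hcon)
    linarith
  have h7 : (M : ℝ) ≤ volCO (LC.kz (upz F.zu (pR (rbot S)))) (fun i => upz F.zu (cnA s (pR (rbot S)) y i))
      (F.f.X.chg L.V F.e F.he) := by linarith
  exact h7

/-! ### values of transitions -/

theorem inv77 {P : Fin M → MvPolynomial (Fin M) ℝ} (hP : Tri P) :
    tm (Pool.Agent.Helper77.WDG.inv P) = Pool.Agent.Helper36.AM.inv P := by
  rw [tm_inv hP]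
  symm
  refine slv_unique hP fun j => ?_
  rw [inv_eq hP j]
  exact sub_add_cancel _ _

section val

variable {Q : S.VV M} {L : Lab S} {La Lb : Fin M → ℝ} (f : Frm Q L La) (g : Frm Q L Lb)

/-- the transition of the charts -/
def rho (k : ℕ) (ω : (L k).T.Ω) : Fin M → MvPolynomial (Fin M) ℝ := trs (f.P k ω) (g.P k ω)

/-- the coordinates of `f` as polynomials of the coordinates of `g` -/
def gtr (k : ℕ) (ω : (L k).T.Ω) (j : Fin M) : MvPolynomial (Fin M) ℝ :=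
  scl (S.dl (La j) k)⁻¹ (fun a => S.dl (Lb a) k) (tm (rho f g k ω) j)

theorem rho_fn : ∀ᶠ k in UF, ∀ ω ω' : (L k).T.Ω, (L k).T.μ ω ≠ 0 → (L k).T.μ ω' ≠ 0 → (L k).T.Z ω ω' →
    (L k).V ω ω' → rho f g k ω = rho f g k ω' := by
  filter_upwards [f.fn, g.fn] with k h1 h2 ω ω' a b c d
  have e1 : f.P k ω = f.P k ω' := h1 ω ω' a b c d
  have e2 : g.P k ω = g.P k ω' := h2 ω ω' a b c d
  unfold rho
  rw [e1, e2]

theorem rho_eval (k : ℕ) (ω : (L k).T.Ω) (u : Fin M → ℝ) (j : Fin M) : MvPolynomial.eval u (tm (rho f g k ω) j) =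
    MvPolynomial.eval (fun i => u i + MvPolynomial.eval u (g.P k ω i)) (Pool.Agent.Helper36.AM.inv (f.P k ω) j) := by
  have h1 : tm (rho f g k ω) j = MvPolynomial.bind₁ (tm (g.P k ω)) (tm (Pool.Agent.Helper77.WDG.inv (f.P k ω)) j) :=
    (bind_cmp j).symm
  have h3 : Tri (f.P k ω) := f.tri k ω
  rw [h1, inv77 h3, Pool.Agent.Helper77.WDG.eval_bind]
  have h2 : (fun i => MvPolynomial.eval u (tm (g.P k ω) i)) = fun i => u i + MvPolynomial.eval u (g.P k ω i) :=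
    funext fun i => Pool.Agent.Helper77.WDG.eval_tm u i
  rw [h2]

/-- THE VALUES of the transition -/
theorem gtr_val (h0 : ∀ i, 0 ≤ La i) {d : ℕ} (hd : ∀ k ω j, (f.P k ω j).totalDegree ≤ d) :
    ∃ K : ℕ → ℝ, S.Sub K ∧ ∀ᶠ k in UF, ∀ ω : (L k).T.Ω, (L k).T.μ ω ≠ 0 → ∀ j,
      |MvPolynomial.eval (g.X.v k ω) (gtr f g k ω j) - f.X.v k ω j| ≤ K k * S.dl (1 - La j) k := by
  obtain ⟨Kc, hKc, hc⟩ := f.bd
  obtain ⟨Kp, hKp, hp⟩ := f.pt
  obtain ⟨Kq, hKq, hq⟩ := g.pt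
  obtain ⟨Kx, hKx', hx⟩ := f.X.bd
  have hKx : S.Sub Kx := (sp_Sub L).mp hKx'
  obtain ⟨B, hB⟩ : ∃ B : ℕ → ℝ, B = fun k => ((d : ℝ) + 1) ^ M * Kc k * (d * (Kx k + 1) ^ d) := ⟨_, rfl⟩
  have hBS : S.Sub B := by
    rw [hB]
    exact ((S.Sub_const (by positivity)).mul hKc).mul ((S.Sub_const (Nat.cast_nonneg _)).mul
      (Sub_pow' (hKx.add (S.Sub_const zero_le_one)) d))
  have hE : S.Sub (fun k => (1 + B k) ^ M * (Kp k + Kq k)) :=
    (Sub_pow' ((S.Sub_const zero_le_one).add hBS) M).mul (hKp.add hKq)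
  refine ⟨_, hE, ?_⟩
  filter_upwards [hc, hp, hq, hx, hKc.1, hKp.1, hKq.1, hKx.1, hE.eventually_le one_pos] with k c1 c2 c3 c4 p1 p2 p3 p4 p5
  intro ω hω j
  have hδ := S.dl_pos 1 k
  have hd1 : S.dl 1 k * 2 ^ (1 * (S.F k).n) = 1 := by
    unfold Sp.dl
    rw [← Real.rpow_add (by norm_num)]
    norm_num
  have hB0 : 0 ≤ B k := by rw [hB]; positivity
  have hs : (1 + B k) ^ M * ((Kp k + Kq k) * S.dl 1 k) ≤ 1 := by
    have h2 := mul_le_mul_of_nonneg_right p5 hδ.le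
    rw [mul_comm (2 ^ (1 * (S.F k).n)) (S.dl 1 k), hd1] at h2
    linarith
  set u : Fin M → ℝ := fun a => S.dl (Lb a) k * g.X.v k ω a with hu
  have h2 := inv_val (P := f.P k ω) (f.tri k ω) (fun j => hd k ω j) p1 (fun j a => c1 ω hω j a) p4
    (show 0 ≤ (Kp k + Kq k) * S.dl 1 k by positivity) (L := B k) (by rw [hB]) hs
    (fun a => S.dl (La a) k * f.X.v k ω a) (fun i => u i + MvPolynomial.eval u (g.P k ω i)) (fun i => by
      rw [abs_mul, abs_of_pos (S.dl_pos _ _)]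
      have h3 : S.dl (La i) k ≤ 1 := (S.dl_anti (h0 i) k).trans (le_of_eq (S.dl_zero k))
      have h4 : |f.X.v k ω i| ≤ Kx k := c4 ω hω i
      calc S.dl (La i) k * |f.X.v k ω i| ≤ 1 * |f.X.v k ω i| := mul_le_mul_of_nonneg_right h3 (abs_nonneg _)
        _ ≤ Kx k := by rw [one_mul]; exact h4)
    (fun i => by
      have h3 := c2 ω hω i
      have h4 : |(L.pj.vv Q).v k ω i - (MvPolynomial.eval u (g.P k ω i) + u i)| ≤ Kq k * S.dl 1 k := c3 ω hω i
      rw [abs_le] at h3 h4 ⊢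
      constructor <;> nlinarith) j
  have h3 : MvPolynomial.eval (g.X.v k ω) (gtr f g k ω j) - f.X.v k ω j = (S.dl (La j) k)⁻¹ *
      (MvPolynomial.eval (fun i => u i + MvPolynomial.eval u (g.P k ω i)) (Pool.Agent.Helper36.AM.inv (f.P k ω) j) -
        S.dl (La j) k * f.X.v k ω j) := by
    have h4 : MvPolynomial.eval (g.X.v k ω) (gtr f g k ω j) = (S.dl (La j) k)⁻¹ *
        MvPolynomial.eval u (tm (rho f g k ω) j) := by
      unfold gtr
      rw [eval_scl]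
    rw [h4, rho_eval, mul_sub, ← mul_assoc (S.dl (La j) k)⁻¹ (S.dl (La j) k), inv_mul_cancel₀ (S.dl_pos _ _).ne',
      one_mul]
  rw [h3, abs_mul, abs_of_pos (inv_pos.mpr (S.dl_pos _ _))]
  refine (mul_le_mul_of_nonneg_left h2 (inv_pos.mpr (S.dl_pos _ _)).le).trans (le_of_eq ?_)
  have h4 : (S.dl (La j) k)⁻¹ * ((1 + B k) ^ M * ((Kp k + Kq k) * S.dl 1 k)) =
      (1 + B k) ^ M * (Kp k + Kq k) * ((S.dl (La j) k)⁻¹ * S.dl 1 k) := by ring
  rw [h4, dl_inv_mul]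

end val

end

end Pool.Agent.Helper85.ZMY
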