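import Pool.Agent.Helper85.ZMY.Trw
import Pool.Agent.Helper85.ZMY.Ltx

/-! TRANSITIONS BETWEEN FRAMES OF DIFFERENT WINDOWS, second part: the transition between a frame of the window `c` and a
frame of a larger window `c'`, in the scale of the window `c`, is tame on typical events: a chain of frames at windows
`c + γ^m (c' - c)`, where `γ < 1` is the gap of the weights. -/

set_option autoImplicit false

namespace Pool.Agent.Helper85.ZMY

open Pool.Agent.Helper69.RK hiding wt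
open Finset Filter Topology Matrix Pool.Agent.Helper31.EC Pool.Agent.Helper31.EC.Sp
open Pool.Agent.Helper40.EL Pool.Agent.Helper89.LX Pool.Agent.Helper3.LF Pool.Agent.Helper84.MT
open Pool.Agent.Helper36.AM (Frm Gz Gzf Lfr)
open Pool.Agent.Helper77.WDG (nrm nrm_nonneg nrm_le_of_coeff coeff_le_nrm Tri TriW tm cmp trs wt wLt_iff deg_le_wt
  cmp_nrm)
open Pool.Agent.Helper18.TRF (scl eval_scl deg_scl ovr_dl ovr_Sub dl_inv_mul frm_deg0 frm_triW Rfn frx)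
open Pool.Agent.Helper7.GZ (Typ_all)
open Pool.Agent.Helper29.MX

noncomputable section

variable {S T : Sp} {M : ℕ} {E : ℕ → ℕ} {ι : Type}

/-- the support of a map of weighted degree less than the weights -/
theorem triW_supp {w : Fin M → ℝ} (hw : ∀ j, 1 ≤ w j) {P : Fin M → MvPolynomial (Fin M) ℝ} (hP : TriW w P) {W : ℕ}
    (hW : ∀ j, w j ≤ W) {j : Fin M} {a : Fin M →₀ ℕ} (ha : a ∈ (P j).support) :
    (a.sum fun _ n => n) ≤ W ∧ wt w a < w j := by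
  have hj : 0 < w j := zero_lt_one.trans_le (hw j)
  have h1 : wt w a < w j := by
    by_cases h0 : a = 0
    · rw [h0]
      have h2 : wt w (0 : Fin M →₀ ℕ) = 0 := by
        unfold wt
        exact Finset.sum_eq_zero fun i _ => by rw [Finsupp.coe_zero, Pi.zero_apply, Nat.cast_zero, zero_mul]
      rw [h2]
      exact hj
    · exact (wLt_iff hj).mp (hP.lt j) a ha h0
  refine ⟨?_, h1⟩
  have h2 := (deg_le_wt hw a).trans (h1.le.trans (hW j))
  exact_mod_cast h2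

theorem triW_deg {w : Fin M → ℝ} (hw : ∀ j, 1 ≤ w j) {P : Fin M → MvPolynomial (Fin M) ℝ} (hP : TriW w P) {W : ℕ}
    (hW : ∀ j, w j ≤ W) (j : Fin M) : (P j).totalDegree ≤ W :=
  Finset.sup_le fun _ ha => (triW_supp hw hP hW ha).1

/-- ONE STEP: two frames over a type-label of the larger window -/
theorem adj [Finite ι] {s : MSys S M E ι} {w : Fin M → ℝ} (hw : ∀ j, 1 ≤ w j) {x y : ℝ} (hx : 0 ≤ x) (hxy : x ≤ y)
    (hwy : ∀ j, w j * y < 1) {L : Lab S} (hL : TLb s y L) (f : Frm s.Q L fun j => w j * x)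
    (g : Frm s.Q L fun j => w j * y) (hT : (M : ℝ) - (∑ i, w i) * y ≤ volKO s (rbot S) y) {W : ℕ}
    (hW : ∀ j, w j ≤ W) {c τ : ℝ} (hτ : ∀ (j : Fin M) (a : Fin M →₀ ℕ), (a.sum fun _ n => n) ≤ W → wt w a < w j →
      wt w a * (y - c) - w j * (x - c) ≤ τ) (δ : ℝ) (hδ : 0 < δ) :
    Typ (S := L.sp) (fun k (ω : (L k).T.Ω) => ∀ j, nrm (hat (fun a => S.dl (w a * c) k) (rho f g k ω) j) ≤
      2 ^ ((τ + δ) * (S.F k).n)) := by
  have hw0 : ∀ j, 0 < w j := fun j => zero_lt_one.trans_le (hw j)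
  have hy : 0 ≤ y := hx.trans hxy
  obtain ⟨e, he, he1, h1⟩ := exists_unit w hwy
  have hN := frm_ng hw hy hL g he he1 h1 hT
  have hρ : ∀ k ω, TriW w (rho f g k ω) := fun k ω =>
    TriW.trs (frm_triW f hx hw0 (fun _ => rfl) k ω) (frm_triW g hy hw0 (fun _ => rfl) k ω)
  refine Typ_all _ fun j => ?_
  have key := noalg_pol (S := L.ovr e he) (D := W + 1) hN (fun k (ω : (L k).T.Ω) => gtr f g k ω j)
    (fun k ω => deg_scl (Pool.Agent.Helper77.WDG.tm_totalDegree (Nat.le_add_left 1 W)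
      (fun i => (triW_deg hw (hρ k ω) hW i).trans (Nat.le_succ W)) j))
    (by
      filter_upwards [rho_fn f g] with k hk
      intro (ω : (L k).T.Ω) (ω' : (L k).T.Ω) a b z
      have h2 : rho f g k ω = rho f g k ω' := hk ω ω' a b z.2 z.1
      show gtr f g k ω j = gtr f g k ω' j
      unfold gtr
      rw [h2])
    (by
      intro η hη
      obtain ⟨K, hK, hv⟩ := gtr_val f g (fun i => mul_nonneg (hw0 i).le hx) (d := W)
        (fun k ω j => frm_deg0 f hx hw hW k ω j)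
      obtain ⟨Kx, hKx', hx'⟩ := f.X.bd
      have hKx : S.Sub Kx := (sp_Sub L).mp hKx'
      have hs : (L.ovr e he).Sub (fun k => K k + Kx k) := (ovr_Sub L e he).mpr (hK.add hKx)
      refine (Typ_true (S := L.ovr e he)).mono ?_
      filter_upwards [hv, hx', hK.1, hs.eventually_le hη] with k a1 a2 p1 p2
      intro (ω : (L k).T.Ω) (hω : (L k).T.μ ω ≠ 0) _
      have h2 := a1 ω hω j
      have h3 : |f.X.v k ω j| ≤ Kx k := a2 ω hω j
      have hxj : w j * x ≤ 1 := (mul_le_mul_of_nonneg_left hxy (hw0 j).le).trans (hwy j).le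
      have h4 : S.dl (1 - w j * x) k ≤ 1 := (S.dl_anti (sub_nonneg.mpr hxj) k).trans (le_of_eq (S.dl_zero k))
      have h5 := abs_add_le (MvPolynomial.eval (g.X.v k ω) (gtr f g k ω j) - f.X.v k ω j) (f.X.v k ω j)
      rw [sub_add_cancel] at h5
      have h6 := mul_le_mul_of_nonneg_left h4 p1
      show |MvPolynomial.eval (g.X.v k ω) (gtr f g k ω j)| ≤ _
      linarith) (δ / e) (div_pos hδ he)
  have key' : Typ (S := L.sp) fun k (ω : (L k).T.Ω) =>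
      nrm (gtr f g k ω j) ≤ 2 ^ (δ / e * ((L.ovr e he).F k).n) := key
  refine key'.mono (Eventually.of_forall fun k => ?_)
  intro (ω : (L k).T.Ω) hω h2
  have e1 : δ / e * ((L.ovr e he).F k).n = δ * (S.F k).n := by
    rw [L.n_over e he k, ← mul_assoc, div_mul_cancel₀ _ he.ne']
  rw [e1] at h2
  have h3 := hat_le (P := rho f g k ω) (hρ k ω).tri (j := j) (dx := fun i => S.dl (w i * x) k)
    (dy := fun i => S.dl (w i * y) k) (d := fun i => S.dl (w i * c) k) (fun i => S.dl_pos _ k) (fun i => S.dl_pos _ k)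
    (fun i => S.dl_pos _ k) (θ := 2 ^ (τ * (S.F k).n)) (B := 2 ^ (δ * (S.F k).n)) (by positivity) h2
    (fun a ha => by
      have h4 := triW_supp hw (hρ k ω) hW ha
      rw [prod_dl, prod_dl, dl_inv_mul, dl_inv_mul]
      unfold Sp.dl
      rw [← Real.rpow_add (by norm_num)]
      refine Real.rpow_le_rpow_of_exponent_le (by norm_num) ?_
      have h5 := hτ j a h4.1 h4.2
      have h6 := mul_le_mul_of_nonneg_right h5 (S.F k).pos.le
      nlinarith)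
  refine h3.trans (le_of_eq ?_)
  rw [← Real.rpow_add (by norm_num)]
  congr 1
  ring

/-- sizes of compositions -/
theorem cmp_pow {P Q : Fin M → MvPolynomial (Fin M) ℝ} {D : ℕ} (hD : ∀ j, (P j).totalDegree ≤ D) {u v : ℝ}
    (hu : 0 ≤ u) (hv : 0 ≤ v) (hP : ∀ j, nrm (P j) ≤ 2 ^ u) (hQ : ∀ j, nrm (Q j) ≤ 2 ^ v) (j : Fin M) :
    nrm (cmp P Q j) ≤ 2 ^ ((D : ℝ) + 1) * 2 ^ (u + (D + 1) * v) := by
  have h1 := cmp_nrm (B := 2 ^ u) (B' := 2 ^ v) (by positivity) hD hP hQ j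
  refine h1.trans ?_
  have a1 : (1 : ℝ) ≤ 2 ^ v := Real.one_le_rpow (by norm_num) hv
  have a2 : (1 : ℝ) ≤ 2 ^ u := Real.one_le_rpow (by norm_num) hu
  have h2 : (1 + (2 : ℝ) ^ v) ^ D ≤ (2 * 2 ^ v) ^ D := pow_le_pow_left₀ (by positivity) (by linarith) D
  have h3 : (2 * (2 : ℝ) ^ v) ^ D = 2 ^ (D : ℝ) * 2 ^ (D * v) := by
    rw [mul_pow, ← Real.rpow_natCast 2 D, ← Real.rpow_natCast ((2 : ℝ) ^ v) D, ← Real.rpow_mul (by norm_num)]
    congr 2
    ring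
  have h4 : (2 : ℝ) ^ (u + (D + 1) * v) = 2 ^ u * 2 ^ (D * v) * 2 ^ v := by
    rw [← Real.rpow_add (by norm_num), ← Real.rpow_add (by norm_num)]
    congr 1
    ring
  have h5 : (2 : ℝ) ^ ((D : ℝ) + 1) = 2 * 2 ^ (D : ℝ) := by
    rw [Real.rpow_add (by norm_num), Real.rpow_one, mul_comm]
  rw [h4, h5]
  have a3 : (1 : ℝ) ≤ 2 ^ (D * v) := Real.one_le_rpow (by norm_num) (mul_nonneg (Nat.cast_nonneg _) hv)
  have a4 : (1 : ℝ) ≤ 2 ^ (D : ℝ) := Real.one_le_rpow (by norm_num) (Nat.cast_nonneg _)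
  have b1 : (2 : ℝ) ^ u * (1 + 2 ^ v) ^ D ≤ 2 ^ u * (2 ^ (D : ℝ) * 2 ^ (D * v)) := by
    rw [← h3]
    exact mul_le_mul_of_nonneg_left h2 (by positivity)
  have b2 : (2 : ℝ) ^ v ≤ 2 ^ (D : ℝ) * (2 ^ u * 2 ^ (D * v) * 2 ^ v) := by
    have c1 : (1 : ℝ) ≤ 2 ^ (D : ℝ) * (2 ^ u * 2 ^ (D * v)) :=
      one_le_mul_of_one_le_of_one_le a4 (one_le_mul_of_one_le_of_one_le a2 a3)
    have c2 := mul_le_mul_of_nonneg_right c1 (show (0 : ℝ) ≤ 2 ^ v by positivity)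
    calc (2 : ℝ) ^ v = 1 * 2 ^ v := (one_mul _).symm
      _ ≤ 2 ^ (D : ℝ) * (2 ^ u * 2 ^ (D * v)) * 2 ^ v := c2
      _ = _ := by ring
  have b3 : (2 : ℝ) ^ u * (2 ^ (D : ℝ) * 2 ^ (D * v)) ≤ 2 ^ (D : ℝ) * (2 ^ u * 2 ^ (D * v) * 2 ^ v) := by
    have c1 := mul_le_mul_of_nonneg_left a1 (show (0 : ℝ) ≤ 2 ^ (D : ℝ) * (2 ^ u * 2 ^ (D * v)) by positivity)
    calc (2 : ℝ) ^ u * (2 ^ (D : ℝ) * 2 ^ (D * v)) = 2 ^ (D : ℝ) * (2 ^ u * 2 ^ (D * v)) * 1 := by ring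
      _ ≤ 2 ^ (D : ℝ) * (2 ^ u * 2 ^ (D * v)) * 2 ^ v := c1
      _ = _ := by ring
  linarith

/-- COMPOSITION of two transitions through a frame over a literal label -/
theorem thru {Q : S.VV M} {L l : Lab S} {X : Rsl S} {La Lb Lc : Fin M → ℝ} (r : Rfn L l) (f : Frm Q l La)
    (h : Frm Q (Lab.ofZ X) Lb) (g : Frm Q L Lc) (w : Fin M → ℝ) (c : ℝ) {W : ℕ}
    (hd : ∀ k (ω : (l k).T.Ω) j, (rho (frx (ltx_lab l X) f) (frx (ltx_lit l X) h) k ω j).totalDegree ≤ W) {δ : ℝ}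
    (hδ : 0 < δ)
    (A : Typ (S := (ltx l X).sp) (fun k (ω : (l k).T.Ω) => ∀ j, nrm (hat (fun a => S.dl (w a * c) k)
      (rho (frx (ltx_lab l X) f) (frx (ltx_lit l X) h) k ω) j) ≤ 2 ^ (δ / (W + 3) * (S.F k).n)))
    (B : Typ (S := (ltx L X).sp) (fun k (ω : (L k).T.Ω) => ∀ j, nrm (hat (fun a => S.dl (w a * c) k)
      (rho (frx (ltx_lit L X) h) (frx (ltx_lab L X) g) k ω) j) ≤ 2 ^ (δ / (W + 3) * (S.F k).n))) :
    Typ (S := L.sp) (fun k (ω : (L k).T.Ω) => ∀ j, nrm (hat (fun a => S.dl (w a * c) k) (rho (frx r f) g k ω) j) ≤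
      2 ^ (δ * (S.F k).n)) := by
  have A0 : Typ (S := l.sp) (fun k (ω : (l k).T.Ω) => ∀ j, nrm (hat (fun a => S.dl (w a * c) k)
      (rho (frx (ltx_lab l X) f) (frx (ltx_lit l X) h) k ω) j) ≤ 2 ^ (δ / (W + 3) * (S.F k).n)) := A
  have A1 := r.pj.typ A0
  have B0 : Typ (S := L.sp) (fun k (ω : (L k).T.Ω) => ∀ j, nrm (hat (fun a => S.dl (w a * c) k)
      (rho (frx (ltx_lit L X) h) (frx (ltx_lab L X) g) k ω) j) ≤ 2 ^ (δ / (W + 3) * (S.F k).n)) := B
  refine (A1.and B0).mono ?_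
  have h2S : S.Sub (fun _ => (2 : ℝ) ^ ((W : ℝ) + 1)) := S.Sub_const (by positivity)
  have hδ' : 0 < δ / (W + 3) := by positivity
  filter_upwards [h2S.eventually_le hδ'] with k p1
  intro (ω : (L k).T.Ω) (hω : (L k).T.μ ω ≠ 0) h1 j
  have a1 : ∀ j, nrm (hat (fun a => S.dl (w a * c) k) (trs (f.P k ((r.q k).π ω)) (h.P k ((L k).p.π ω))) j) ≤
      2 ^ (δ / (W + 3) * (S.F k).n) := fun j => by
    have h2 := h1.1 j
    have e1 : h.P k ((l k).p.π ((r.q k).π ω)) = h.P k ((L k).p.π ω) := by rw [r.pr k ω hω]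
    rw [← e1]
    exact h2
  have a2 : ∀ j, nrm (hat (fun a => S.dl (w a * c) k) (trs (h.P k ((L k).p.π ω)) (g.P k ω)) j) ≤
      2 ^ (δ / (W + 3) * (S.F k).n) := fun j => h1.2 j
  have e1 : rho (frx r f) g k ω = cmp (trs (f.P k ((r.q k).π ω)) (h.P k ((L k).p.π ω)))
      (trs (h.P k ((L k).p.π ω)) (g.P k ω)) := (trs_trs (h.tri k _)).symm
  rw [e1, hat_cmp (fun j => (S.dl_pos _ k).ne')]
  have hn := (S.F k).pos
  have u0 : 0 ≤ δ / (W + 3) * (S.F k).n := mul_nonneg hδ'.le hn.le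
  have hd' : ∀ j, (hat (fun a => S.dl (w a * c) k) (trs (f.P k ((r.q k).π ω)) (h.P k ((L k).p.π ω))) j).totalDegree ≤
      W := fun j => by
    refine hat_deg (fun i => ?_) j
    have h3 := hd k ((r.q k).π ω) i
    have e2 : rho (frx (ltx_lab l X) f) (frx (ltx_lit l X) h) k ((r.q k).π ω) =
        trs (f.P k ((r.q k).π ω)) (h.P k ((l k).p.π ((r.q k).π ω))) := rfl
    rw [e2, r.pr k ω hω] at h3
    exact h3
  refine (cmp_pow hd' u0 u0 a1 a2 j).trans ?_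
  have h5 : (2 : ℝ) ^ (δ * (S.F k).n) = 2 ^ (δ / (W + 3) * (S.F k).n) *
      2 ^ (δ / (W + 3) * (S.F k).n + ((W : ℝ) + 1) * (δ / (W + 3) * (S.F k).n)) := by
    rw [← Real.rpow_add (by norm_num)]
    congr 1
    field_simp
    ring
  rw [h5]
  exact mul_le_mul_of_nonneg_right (by linarith) (by positivity)

/-- the windows of the chain -/
def ywin (γ c c' : ℝ) (m : ℕ) : ℝ := c + γ ^ m * (c' - c)

theorem ywin_ge {γ c c' : ℝ} (g0 : 0 ≤ γ) (h : c ≤ c') (m : ℕ) : c ≤ ywin γ c c' m := by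
  have := mul_nonneg (pow_nonneg g0 m) (sub_nonneg.mpr h)
  unfold ywin
  linarith

theorem ywin_le {γ c c' : ℝ} (g0 : 0 ≤ γ) (g1 : γ ≤ 1) (h : c ≤ c') (m : ℕ) : ywin γ c c' m ≤ c' := by
  have := mul_le_mul_of_nonneg_right (pow_le_one₀ (n := m) g0 g1) (sub_nonneg.mpr h)
  unfold ywin
  linarith

section chain

variable [Finite ι] {s : MSys S M E ι} {w : Fin M → ℝ} {c c' : ℝ}

/-- THE CHAIN -/
theorem chain (hw : ∀ j, 1 ≤ w j) (h0 : 0 ≤ c) (hcc : c ≤ c') (hwc : ∀ j, w j * c' < 1)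
    (hT : ∀ z, c ≤ z → z ≤ c' → (M : ℝ) - (∑ i, w i) * z ≤ volKO s (rbot S) z)
    (hC : ∀ z, c ≤ z → z ≤ c' → ∃ X : Rsl S, TLb s z (Lab.ofZ X) ∧ Nonempty (Frm s.Q (Lab.ofZ X) fun j => w j * z))
    {W : ℕ} (hW : ∀ j, w j ≤ W) {γ : ℝ} (g0 : 0 ≤ γ) (g1 : γ ≤ 1) (hγ : ∀ (j : Fin M) (a : Fin M →₀ ℕ),
      (a.sum fun _ n => n) ≤ W → wt w a < w j → wt w a ≤ γ * w j) (m : ℕ) :
    ∀ (L : Lab S), TLb s c' L → ∀ (g : Frm s.Q L fun j => w j * c') (l : Lab S) (r : Rfn L l),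
      TLb s (ywin γ c c' m) l → ∀ (f : Frm s.Q l fun j => w j * ywin γ c c' m) (δ : ℝ), 0 < δ →
        Typ (S := L.sp) (fun k (ω : (L k).T.Ω) => ∀ j, nrm (hat (fun a => S.dl (w a * c) k)
          (rho (frx r f) g k ω) j) ≤ 2 ^ (δ * (S.F k).n)) := by
  have hw0 : ∀ j, 0 < w j := fun j => zero_lt_one.trans_le (hw j)
  induction m with
  | zero =>
    intro L hL g l r _ f δ hδ
    have hy : ywin γ c c' 0 = c' := by
      unfold ywin
      rw [pow_zero, one_mul]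
      ring
    have h1 := adj hw (h0.trans (ywin_ge g0 hcc 0)) (ywin_le g0 g1 hcc 0) hwc hL (frx r f) g (hT c' hcc le_rfl) hW
      (c := c) (τ := 0) (fun j a _ h => by
        rw [hy, ← sub_mul]
        exact mul_nonpos_of_nonpos_of_nonneg (by linarith) (sub_nonneg.mpr hcc)) δ hδ
    rw [zero_add] at h1
    exact h1
  | succ m ih =>
    intro L hL g l r hl f δ hδ
    have q1 := ywin_ge (γ := γ) g0 hcc m
    have q2 := ywin_le g0 g1 hcc m
    have q3 : ywin γ c c' (m + 1) - c = γ * (ywin γ c c' m - c) := by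
      unfold ywin
      rw [pow_succ]
      ring
    have q4 : ywin γ c c' (m + 1) ≤ ywin γ c c' m := by
      have := mul_le_mul_of_nonneg_right g1 (sub_nonneg.mpr q1)
      linarith
    have q5 := ywin_ge (γ := γ) g0 hcc (m + 1)
    obtain ⟨X, hX, ⟨h⟩⟩ := hC _ q1 q2
    have hd : ∀ k (ω : (l k).T.Ω) j, (rho (frx (ltx_lab l X) f) (frx (ltx_lit l X) h) k ω j).totalDegree ≤ W :=
      fun k ω j => triW_deg hw (TriW.trs (frm_triW (frx (ltx_lab l X) f) (h0.trans q5) hw0 (fun _ => rfl) k ω)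
        (frm_triW (frx (ltx_lit l X) h) (h0.trans q1) hw0 (fun _ => rfl) k ω)) hW j
    refine thru r f h g w c (W := W) hd hδ ?_ ?_
    · have hδ' : 0 < δ / (W + 3) := by positivity
      have h1 := adj hw (h0.trans q5) q4 (fun j => (mul_le_mul_of_nonneg_left q2 (hw0 j).le).trans_lt (hwc j))
        (tlb_ltx (tlb_mono q4 hl) hX) (frx (ltx_lab l X) f) (frx (ltx_lit l X) h) (hT _ q1 q2) hW (c := c) (τ := 0)
        (fun j a ha h => by
          rw [q3]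
          have h2 := mul_le_mul_of_nonneg_right (hγ j a ha h) (sub_nonneg.mpr q1)
          linarith) _ hδ'
      rw [zero_add] at h1
      exact h1
    · have hδ' : 0 < δ / (W + 3) := by positivity
      exact ih (ltx L X) (tlb_ltx hL (tlb_mono q2 hX)) (frx (ltx_lab L X) g) (Lab.ofZ X) (ltx_lit L X) hX h _ hδ'

/-- **TRANSITIONS BETWEEN WINDOWS** (TRW): in the scale of the smaller window, the transition from a frame of the window
`c` to a frame of a window `c' ≥ c` is tame on typical events -/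
theorem trw (hw : ∀ j, 1 ≤ w j) (h0 : 0 ≤ c) (hcc : c ≤ c') (hwc : ∀ j, w j * c' < 1)
    (hT : ∀ z, c ≤ z → z ≤ c' → (M : ℝ) - (∑ i, w i) * z ≤ volKO s (rbot S) z)
    (hC : ∀ z, c ≤ z → z ≤ c' → ∃ X : Rsl S, TLb s z (Lab.ofZ X) ∧ Nonempty (Frm s.Q (Lab.ofZ X) fun j => w j * z))
    {L l : Lab S} (r : Rfn L l) (hl : TLb s c l) (f : Frm s.Q l fun j => w j * c) (hL : TLb s c' L)
    (g : Frm s.Q L fun j => w j * c') (δ : ℝ) (hδ : 0 < δ) :
    Typ (S := L.sp) (fun k (ω : (L k).T.Ω) => ∀ j, nrm (hat (fun a => S.dl (w a * c) k)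
      (rho (frx r f) g k ω) j) ≤ 2 ^ (δ * (S.F k).n)) := by
  have hw0 : ∀ j, 0 < w j := fun j => zero_lt_one.trans_le (hw j)
  obtain ⟨W, hW⟩ := exists_bd w hw
  obtain ⟨γ, g0, g1, hγ⟩ := exists_gap w hw0 W
  have hδ' : 0 < δ / (W + 3) := by positivity
  obtain ⟨m, hm⟩ : ∃ m : ℕ, W * (γ ^ m * (c' - c)) ≤ δ / (W + 3) / 2 := by
    have hp : 0 < δ / (W + 3) / 2 / (W * (c' - c) + 1) :=
      div_pos (half_pos hδ') (add_pos_of_nonneg_of_pos (mul_nonneg (Nat.cast_nonneg _) (sub_nonneg.mpr hcc)) one_pos)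
    obtain ⟨m, hm⟩ := exists_pow_lt_of_lt_one hp g1
    refine ⟨m, ?_⟩
    have hq : 0 < W * (c' - c) + 1 :=
      add_pos_of_nonneg_of_pos (mul_nonneg (Nat.cast_nonneg _) (sub_nonneg.mpr hcc)) one_pos
    rw [lt_div_iff₀ hq] at hm
    have hg := pow_nonneg g0 m
    nlinarith
  have q1 := ywin_ge (γ := γ) g0 hcc m
  have q2 := ywin_le g0 g1.le hcc m
  obtain ⟨X, hX, ⟨h⟩⟩ := hC _ q1 q2
  have hd : ∀ k (ω : (l k).T.Ω) j, (rho (frx (ltx_lab l X) f) (frx (ltx_lit l X) h) k ω j).totalDegree ≤ W :=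
    fun k ω j => triW_deg hw (TriW.trs (frm_triW (frx (ltx_lab l X) f) h0 hw0 (fun _ => rfl) k ω)
      (frm_triW (frx (ltx_lit l X) h) (h0.trans q1) hw0 (fun _ => rfl) k ω)) hW j
  refine thru r f h g w c (W := W) hd hδ ?_ ?_
  · have h1 := adj hw h0 q1 (fun j => (mul_le_mul_of_nonneg_left q2 (hw0 j).le).trans_lt (hwc j))
      (tlb_ltx (tlb_mono q1 hl) hX) (frx (ltx_lab l X) f) (frx (ltx_lit l X) h) (hT _ q1 q2) hW (c := c)
      (τ := δ / (W + 3) / 2) (fun j a _ h => by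
        rw [sub_self, mul_zero, sub_zero]
        refine le_trans ?_ hm
        have e1 : ywin γ c c' m - c = γ ^ m * (c' - c) := by
          unfold ywin
          ring
        rw [e1]
        exact mul_le_mul_of_nonneg_right (h.le.trans (hW j)) (mul_nonneg (pow_nonneg g0 m) (sub_nonneg.mpr hcc)))
      _ (half_pos hδ')
    rw [add_halves] at h1
    exact h1
  · exact chain hw h0 hcc hwc hT hC hW g0 g1.le hγ m (ltx L X) (tlb_ltx hL (tlb_mono q2 hX)) (frx (ltx_lab L X) g)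
      (Lab.ofZ X) (ltx_lit L X) hX h _ hδ'

end chain

end

end Pool.Agent.Helper85.ZMY
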